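import Mathlib
import Pool.Agent.H50.G.S.R528.RM.Azuma
set_option autoImplicit false
set_option linter.unusedSectionVars false

/-! # An exponential inequality of Chernoff type for predictable sums -/

open MeasureTheory Filter Set
open scoped ENNReal Topology

namespace Pool.Agent.R528.RM

variable {Ω : Type} {m0 : MeasurableSpace Ω} {μ : Measure Ω} [IsProbabilityMeasure μ]
  {ℱ : Filtration ℕ m0} {A : ℕ → Set Ω}

/-- the sum of the weighted densities -/
noncomputable def Vw (μ : Measure Ω) (ℱ : Filtration ℕ m0) (A : ℕ → Set Ω) (a : ℕ) (w : ℕ → Ω → ℝ) (M : ℕ) (ω : Ω) : ℝ :=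
  ∑ k ∈ Finset.range M, w k ω * dens μ ℱ A (a + k) ω

lemma Vw_meas (a : ℕ) (w : ℕ → Ω → ℝ)
    (hw : ∀ k, StronglyMeasurable[ℱ (a + k)] (w k)) (M : ℕ) :
    StronglyMeasurable[ℱ (a + M)] (Vw μ ℱ A a w M) := by
  have h1 : Vw μ ℱ A a w M = ∑ k ∈ Finset.range M, (w k * dens μ ℱ A (a + k)) := by
    funext ω
    simp [Vw]
  rw [h1]
  refine Finset.stronglyMeasurable_sum _ fun k hk => ?_
  have hk' := Finset.mem_range.1 hk
  have h2 : StronglyMeasurable[ℱ (a + M)] (w k) := (hw k).mono (ℱ.mono (by omega))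
  have h4 : StronglyMeasurable[ℱ (a + M)] (dens μ ℱ A (a + k)) := (dens_meas _).mono (ℱ.mono (by omega))
  exact @StronglyMeasurable.mul _ _ _ _ (ℱ (a + M)) _ _ _ h2 h4

lemma Vw_nonneg (hA : ∀ n, MeasurableSet[ℱ n] (A n)) (a : ℕ) (w : ℕ → Ω → ℝ)
    (hw01 : ∀ k ω, 0 ≤ w k ω ∧ w k ω ≤ 1) (M : ℕ) : ∀ᵐ ω ∂μ, 0 ≤ Vw μ ℱ A a w M ω := by
  have h1 : ∀ᵐ ω ∂μ, ∀ n, 0 ≤ dens μ ℱ A n ω ∧ dens μ ℱ A n ω ≤ 1 := ae_all_iff.2 fun n => dens01 hA n
  filter_upwards [h1] with ω hω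
  exact Finset.sum_nonneg fun k _ => mul_nonneg (hw01 k ω).1 (hω _).1

theorem Cw_mgf (hA : ∀ n, MeasurableSet[ℱ n] (A n)) (a : ℕ) (w : ℕ → Ω → ℝ)
    (hw : ∀ k, StronglyMeasurable[ℱ (a + k)] (w k)) (hw01 : ∀ k ω, 0 ≤ w k ω ∧ w k ω ≤ 1) {t : ℝ} (ht : |t| ≤ 1) (M : ℕ) :
    ∫ ω, Real.exp (t * Sw μ ℱ A a w M ω - t ^ 2 * Vw μ ℱ A a w M ω) ∂μ ≤ 1 := by
  have hw1 : ∀ k ω, |w k ω| ≤ 1 := fun k ω => by rw [abs_of_nonneg (hw01 k ω).1]; exact (hw01 k ω).2
  have hbd : ∀ M, ∀ᵐ ω ∂μ, |Real.exp (t * Sw μ ℱ A a w M ω - t ^ 2 * Vw μ ℱ A a w M ω)| ≤ Real.exp M := by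
    intro M
    filter_upwards [Sw_bound (μ := μ) (ℱ := ℱ) hA a w hw1 M, Vw_nonneg (μ := μ) (ℱ := ℱ) hA a w hw01 M] with ω hω h2
    rw [abs_of_pos (Real.exp_pos _)]
    apply Real.exp_le_exp.2
    have h3 : t * Sw μ ℱ A a w M ω ≤ M := by
      refine (le_abs_self _).trans ?_
      rw [abs_mul]
      calc |t| * |Sw μ ℱ A a w M ω| ≤ 1 * M := mul_le_mul ht hω (abs_nonneg _) zero_le_one
        _ = _ := one_mul _
    have h4 : 0 ≤ t ^ 2 * Vw μ ℱ A a w M ω := by positivity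
    linarith
  have hEm : ∀ M, StronglyMeasurable[ℱ (a + M)] (fun ω => Real.exp (t * Sw μ ℱ A a w M ω - t ^ 2 * Vw μ ℱ A a w M ω)) := by
    intro M
    have h1 := (Sw_meas (μ := μ) hA a w hw M).const_mul t
    have h2 := (Vw_meas (μ := μ) (ℱ := ℱ) (A := A) a w hw M).const_mul (t ^ 2)
    have h3 : StronglyMeasurable[ℱ (a + M)] (fun ω => t * Sw μ ℱ A a w M ω - t ^ 2 * Vw μ ℱ A a w M ω) :=
      @StronglyMeasurable.sub _ _ _ _ (ℱ (a + M)) _ _ _ h1 h2
    exact Real.continuous_exp.comp_stronglyMeasurable h3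
  have hint : ∀ M, Integrable (fun ω => Real.exp (t * Sw μ ℱ A a w M ω - t ^ 2 * Vw μ ℱ A a w M ω)) μ := by
    intro M
    exact Integrable.of_bound ((hEm M).mono (ℱ.le _)).aestronglyMeasurable (Real.exp M) (hbd M)
  induction M with
  | zero => simp [Sw, Vw]
  | succ M ih =>
    set D := dens μ ℱ A (a + M) with hD
    set I := (A (a + M + 1)).indicator (fun _ => (1 : ℝ)) with hI
    set E : Ω → ℝ := fun ω => Real.exp (t * Sw μ ℱ A a w M ω - t ^ 2 * Vw μ ℱ A a w M ω) with hE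
    set c : ℝ := t + t ^ 2 with hc
    obtain ⟨ht1, ht2⟩ := abs_le.1 ht
    have hcb : |c| ≤ 2 := by
      rw [abs_le, hc]
      constructor <;> nlinarith
    have hs : ∀ ω, Sw μ ℱ A a w (M + 1) ω = Sw μ ℱ A a w M ω + w M ω * (I ω - D ω) := by
      intro ω
      unfold Sw
      rw [Finset.sum_range_succ]
    have hv : ∀ ω, Vw μ ℱ A a w (M + 1) ω = Vw μ ℱ A a w M ω + w M ω * D ω := by
      intro ω
      unfold Vw
      rw [Finset.sum_range_succ]
    have h01 := dens01 (μ := μ) (ℱ := ℱ) hA (a + M)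
    set F : Ω → ℝ := fun ω => E ω * Real.exp (-(c * (w M ω * D ω))) with hF
    have hpt : ∀ᵐ ω ∂μ, Real.exp (t * Sw μ ℱ A a w (M + 1) ω - t ^ 2 * Vw μ ℱ A a w (M + 1) ω) ≤
        F ω + c * (F ω * w M ω * I ω) := by
      filter_upwards [h01] with ω hω
      have hwM := hw01 M ω
      have h2 : Real.exp (t * w M ω * I ω) ≤ 1 + c * (w M ω * I ω) := by
        rcases Set.indicator_eq_zero_or_self (A (a + M + 1)) (fun _ => (1 : ℝ)) ω with h | h
        · rw [hI, h]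
          simp
        · rw [hI, h, mul_one, mul_one]
          have g1 : |t * w M ω| ≤ 1 := by
            rw [abs_mul]
            exact mul_le_one₀ ht (abs_nonneg _) (hw1 M ω)
          have g2 := Real.abs_exp_sub_one_sub_id_le g1
          have g3 := (abs_le.1 g2).2
          have g4 : (t * w M ω) ^ 2 ≤ t ^ 2 * w M ω := by
            rw [mul_pow]
            apply mul_le_mul_of_nonneg_left _ (sq_nonneg t)
            nlinarith
          rw [hc]
          nlinarith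
      have h3 : Real.exp (t * Sw μ ℱ A a w (M + 1) ω - t ^ 2 * Vw μ ℱ A a w (M + 1) ω) =
          F ω * Real.exp (t * w M ω * I ω) := by
        simp only [hF, hE]
        rw [← Real.exp_add, ← Real.exp_add, hs, hv, hc]
        congr 1
        ring
      rw [h3]
      calc F ω * Real.exp (t * w M ω * I ω) ≤ F ω * (1 + c * (w M ω * I ω)) :=
            mul_le_mul_of_nonneg_left h2 (by simp only [hF, hE]; positivity)
        _ = _ := by ring
    -- measurability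
    have hDm : StronglyMeasurable[ℱ (a + M)] D := dens_meas _
    have hwD : StronglyMeasurable[ℱ (a + M)] (fun ω => w M ω * D ω) :=
      @StronglyMeasurable.mul _ _ _ _ (ℱ (a + M)) _ _ _ (hw M) hDm
    have hFm : StronglyMeasurable[ℱ (a + M)] F := by
      have h1 : StronglyMeasurable[ℱ (a + M)] (fun ω => Real.exp (-(c * (w M ω * D ω)))) :=
        Real.continuous_exp.comp_stronglyMeasurable ((hwD.const_mul c).neg)
      exact @StronglyMeasurable.mul _ _ _ _ (ℱ (a + M)) _ _ _ (hEm M) h1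
    have hfm : StronglyMeasurable[ℱ (a + M)] (fun ω => F ω * w M ω) :=
      @StronglyMeasurable.mul _ _ _ _ (ℱ (a + M)) _ _ _ hFm (hw M)
    set B : ℝ := Real.exp M * Real.exp 2 with hB
    have hFb : ∀ᵐ ω ∂μ, ‖F ω‖ ≤ B := by
      filter_upwards [hbd M, h01] with ω hω h2
      simp only [hF]
      rw [norm_mul, hB]
      refine mul_le_mul hω ?_ (norm_nonneg _) (Real.exp_pos _).le
      rw [Real.norm_eq_abs, abs_of_pos (Real.exp_pos _)]
      apply Real.exp_le_exp.2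
      refine (le_abs_self _).trans ?_
      rw [abs_neg, abs_mul]
      have g1 : |w M ω * D ω| ≤ 1 := by
        rw [abs_mul]
        refine mul_le_one₀ (hw1 M ω) (abs_nonneg _) ?_
        rw [abs_of_nonneg h2.1]
        exact h2.2
      calc |c| * |w M ω * D ω| ≤ 2 * 1 := mul_le_mul hcb g1 (abs_nonneg _) (by norm_num)
        _ = 2 := by norm_num
    have hfb : ∀ᵐ ω ∂μ, ‖F ω * w M ω‖ ≤ B := by
      filter_upwards [hFb] with ω hω
      rw [norm_mul]
      calc ‖F ω‖ * ‖w M ω‖ ≤ B * 1 := mul_le_mul hω (hw1 M ω) (norm_nonneg _) (by positivity)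
        _ = _ := mul_one _
    have hpull := pull_A (μ := μ) hA (a + M) hfm B hfb
    have hFam : AEStronglyMeasurable F μ := (hFm.mono (ℱ.le _)).aestronglyMeasurable
    have hfam : AEStronglyMeasurable (fun ω => F ω * w M ω) μ := (hfm.mono (ℱ.le _)).aestronglyMeasurable
    have hIam : AEStronglyMeasurable I μ :=
      ((stronglyMeasurable_const.indicator (ℱ.le _ _ (hA (a + M + 1))))).aestronglyMeasurable
    have hDam : AEStronglyMeasurable D μ := (hDm.mono (ℱ.le _)).aestronglyMeasurable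
    have i0 : Integrable F μ := Integrable.of_bound hFam B hFb
    have i1 : Integrable (fun ω => F ω * w M ω * I ω) μ := by
      refine Integrable.of_bound (hfam.mul hIam) B ?_
      filter_upwards [hfb] with ω hω
      rw [norm_mul]
      have hI1 : ‖I ω‖ ≤ 1 := by
        rw [Real.norm_eq_abs, abs_of_nonneg (indicator_nonneg (fun _ _ => zero_le_one) _)]
        exact indicator_le_self' (fun _ _ => zero_le_one) ω
      calc _ ≤ B * 1 := mul_le_mul hω hI1 (norm_nonneg _) (by positivity)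
        _ = _ := mul_one _
    have i2 : Integrable (fun ω => F ω * w M ω * D ω) μ := by
      refine Integrable.of_bound (hfam.mul hDam) B ?_
      filter_upwards [hfb, h01] with ω hω h2
      rw [norm_mul]
      have hD1 : ‖D ω‖ ≤ 1 := by
        rw [Real.norm_eq_abs, abs_of_nonneg h2.1]
        exact h2.2
      calc _ ≤ B * 1 := mul_le_mul hω hD1 (norm_nonneg _) (by positivity)
        _ = _ := mul_one _
    have h5 := integral_mono_ae (hint (M + 1)) (i0.add (i1.const_mul c)) hpt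
    refine h5.trans ?_
    have h6 : ∫ ω, (F + fun ω => c * (F ω * w M ω * I ω)) ω ∂μ = ∫ ω, (F ω + c * (F ω * w M ω * D ω)) ∂μ := by
      have g1 : ∫ ω, (F + fun ω => c * (F ω * w M ω * I ω)) ω ∂μ = ∫ ω, F ω ∂μ + ∫ ω, c * (F ω * w M ω * I ω) ∂μ :=
        integral_add i0 (i1.const_mul c)
      have g2 : ∫ ω, (F ω + c * (F ω * w M ω * D ω)) ∂μ = ∫ ω, F ω ∂μ + ∫ ω, c * (F ω * w M ω * D ω) ∂μ :=
        integral_add i0 (i2.const_mul c)
      rw [g1, g2, integral_const_mul, integral_const_mul, hpull]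
    rw [h6]
    refine le_trans ?_ ih
    refine integral_mono_ae (i0.add (i2.const_mul c)) (hint M) ?_
    filter_upwards [h01] with ω hω
    show F ω + c * (F ω * w M ω * D ω) ≤ E ω
    have g1 : F ω + c * (F ω * w M ω * D ω) = E ω * (Real.exp (-(c * (w M ω * D ω))) * (1 + c * (w M ω * D ω))) := by
      simp only [hF]
      ring
    rw [g1]
    have g2 : Real.exp (-(c * (w M ω * D ω))) * (1 + c * (w M ω * D ω)) ≤ 1 := by
      have g3 := Real.add_one_le_exp (c * (w M ω * D ω))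
      calc Real.exp (-(c * (w M ω * D ω))) * (1 + c * (w M ω * D ω)) ≤
          Real.exp (-(c * (w M ω * D ω))) * Real.exp (c * (w M ω * D ω)) :=
            mul_le_mul_of_nonneg_left (by linarith) (Real.exp_pos _).le
        _ = 1 := by rw [← Real.exp_add]; simp
    exact mul_le_of_le_one_right (Real.exp_pos _).le g2

/-- the one-sided inequality -/
theorem Cw_tail1 (hA : ∀ n, MeasurableSet[ℱ n] (A n)) (a : ℕ) (w : ℕ → Ω → ℝ)
    (hw : ∀ k, StronglyMeasurable[ℱ (a + k)] (w k)) (hw01 : ∀ k ω, 0 ≤ w k ω ∧ w k ω ≤ 1) {t : ℝ} (ht : |t| ≤ 1) (M : ℕ)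
    (lam : ℝ) :
    μ.real {ω | lam ≤ t * Sw μ ℱ A a w M ω - t ^ 2 * Vw μ ℱ A a w M ω} ≤ Real.exp (-lam) := by
  have hw1 : ∀ k ω, |w k ω| ≤ 1 := fun k ω => by rw [abs_of_nonneg (hw01 k ω).1]; exact (hw01 k ω).2
  have h1 := Cw_mgf (μ := μ) hA a w hw hw01 ht M
  have hEm : StronglyMeasurable[ℱ (a + M)] (fun ω => Real.exp (t * Sw μ ℱ A a w M ω - t ^ 2 * Vw μ ℱ A a w M ω)) := by
    have h1 := (Sw_meas (μ := μ) hA a w hw M).const_mul t
    have h2 := (Vw_meas (μ := μ) (ℱ := ℱ) (A := A) a w hw M).const_mul (t ^ 2)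
    have h3 : StronglyMeasurable[ℱ (a + M)] (fun ω => t * Sw μ ℱ A a w M ω - t ^ 2 * Vw μ ℱ A a w M ω) :=
      @StronglyMeasurable.sub _ _ _ _ (ℱ (a + M)) _ _ _ h1 h2
    exact Real.continuous_exp.comp_stronglyMeasurable h3
  have hint : Integrable (fun ω => Real.exp (t * Sw μ ℱ A a w M ω - t ^ 2 * Vw μ ℱ A a w M ω)) μ := by
    refine Integrable.of_bound (hEm.mono (ℱ.le _)).aestronglyMeasurable (Real.exp M) ?_
    filter_upwards [Sw_bound (μ := μ) (ℱ := ℱ) hA a w hw1 M, Vw_nonneg (μ := μ) (ℱ := ℱ) hA a w hw01 M] with ω hω h2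
    rw [Real.norm_eq_abs, abs_of_pos (Real.exp_pos _)]
    apply Real.exp_le_exp.2
    have h3 : t * Sw μ ℱ A a w M ω ≤ M := by
      refine (le_abs_self _).trans ?_
      rw [abs_mul]
      calc |t| * |Sw μ ℱ A a w M ω| ≤ 1 * M := mul_le_mul ht hω (abs_nonneg _) zero_le_one
        _ = _ := one_mul _
    have h4 : 0 ≤ t ^ 2 * Vw μ ℱ A a w M ω := by positivity
    linarith
  have h2 := mul_meas_ge_le_integral_of_nonneg (μ := μ)
    (Eventually.of_forall fun ω => (Real.exp_pos (t * Sw μ ℱ A a w M ω - t ^ 2 * Vw μ ℱ A a w M ω)).le) hint (Real.exp lam)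
  have h3 : μ.real {ω | lam ≤ t * Sw μ ℱ A a w M ω - t ^ 2 * Vw μ ℱ A a w M ω} ≤
      μ.real {ω | Real.exp lam ≤ Real.exp (t * Sw μ ℱ A a w M ω - t ^ 2 * Vw μ ℱ A a w M ω)} := by
    apply measureReal_mono _ (measure_ne_top _ _)
    intro ω hω
    exact Real.exp_le_exp.2 hω
  have h4 : Real.exp lam * μ.real {ω | lam ≤ t * Sw μ ℱ A a w M ω - t ^ 2 * Vw μ ℱ A a w M ω} ≤ 1 :=
    (mul_le_mul_of_nonneg_left h3 (Real.exp_pos _).le).trans (h2.trans h1)
  rw [Real.exp_neg, ← one_div, le_div_iff₀ (Real.exp_pos _), mul_comm]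
  exact h4

/-- the two-sided inequality: the deviation is at most `s V + lam / s` -/
theorem Cw_tail (hA : ∀ n, MeasurableSet[ℱ n] (A n)) (a : ℕ) (w : ℕ → Ω → ℝ)
    (hw : ∀ k, StronglyMeasurable[ℱ (a + k)] (w k)) (hw01 : ∀ k ω, 0 ≤ w k ω ∧ w k ω ≤ 1) {s : ℝ} (hs : 0 < s) (hs1 : s ≤ 1)
    (M : ℕ) (lam : ℝ) :
    μ.real {ω | s * Vw μ ℱ A a w M ω + lam / s ≤ |Sw μ ℱ A a w M ω|} ≤ 2 * Real.exp (-lam) := by
  have h1 := Cw_tail1 (μ := μ) hA a w hw hw01 (t := s) (by rw [abs_of_pos hs]; exact hs1) M lam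
  have h2 := Cw_tail1 (μ := μ) hA a w hw hw01 (t := -s) (by rw [abs_neg, abs_of_pos hs]; exact hs1) M lam
  have h4 : {ω | s * Vw μ ℱ A a w M ω + lam / s ≤ |Sw μ ℱ A a w M ω|} ⊆
      {ω | lam ≤ s * Sw μ ℱ A a w M ω - s ^ 2 * Vw μ ℱ A a w M ω} ∪
      {ω | lam ≤ (-s) * Sw μ ℱ A a w M ω - (-s) ^ 2 * Vw μ ℱ A a w M ω} := by
    intro ω hω
    have g0 : s * Vw μ ℱ A a w M ω + lam / s ≤ |Sw μ ℱ A a w M ω| := hω
    have g1 : s * (lam / s) = lam := by field_simp
    rcases le_abs.1 g0 with h | h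
    · left
      show lam ≤ _
      nlinarith
    · right
      show lam ≤ _
      nlinarith
  calc μ.real {ω | s * Vw μ ℱ A a w M ω + lam / s ≤ |Sw μ ℱ A a w M ω|} ≤
      μ.real ({ω | lam ≤ s * Sw μ ℱ A a w M ω - s ^ 2 * Vw μ ℱ A a w M ω} ∪
      {ω | lam ≤ (-s) * Sw μ ℱ A a w M ω - (-s) ^ 2 * Vw μ ℱ A a w M ω}) :=
        measureReal_mono h4 (measure_ne_top _ _)
    _ ≤ _ := measureReal_union_le _ _
    _ ≤ _ := by linarith

end Pool.Agent.R528.RM
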