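import Mathlib
import Pool.Agent.H50.G.S.R528.RM.Ana
import Pool.Agent.H50.G.S.R528.RM.Final
set_option autoImplicit false
set_option linter.unusedSectionVars false

/-! # Asymptotic evaluation of the probabilities of runs of length `log²` -/

open MeasureTheory Filter Set
open scoped ENNReal Topology

namespace Pool.Agent.R528.RM

lemma tendsto_inv_add (b : ℝ) : Tendsto (fun L : ℝ => 1 / (L + b)) atTop (𝓝 0) := by
  simp_rw [one_div]
  exact (tendsto_atTop_add_const_right _ b tendsto_id).inv_tendsto_atTop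

lemma tendsto_ratio (b : ℝ) : Tendsto (fun L : ℝ => L / (L + b)) atTop (𝓝 1) := by
  have h1 : Tendsto (fun L : ℝ => 1 - b * (1 / (L + b))) atTop (𝓝 (1 - b * 0)) :=
    tendsto_const_nhds.sub ((tendsto_inv_add b).const_mul b)
  rw [mul_zero, sub_zero] at h1
  refine h1.congr' ?_
  filter_upwards [eventually_gt_atTop (-b)] with L hL
  have : L + b ≠ 0 := by linarith
  field_simp
  ring

/-- the exponent -/
lemma exponent (b : ℝ) : Tendsto (fun L : ℝ => L + ⌈L ^ 2⌉₊ * Real.log (1 - 1 / (L + b))) atTop
    (𝓝 (b - 1 / 2)) := by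
  have hy := tendsto_inv_add b
  have hr := tendsto_ratio b
  -- the error term of the logarithm
  have hR : Tendsto (fun L : ℝ => (⌈L ^ 2⌉₊ : ℝ) * (Real.log (1 - 1 / (L + b)) + (1 / (L + b)) + (1 / (L + b)) ^ 2 / 2))
      atTop (𝓝 0) := by
    have hb : Tendsto (fun L : ℝ => 2 * ((L / (L + b)) ^ 2 * (1 / (L + b)) + (1 / (L + b)) ^ 3)) atTop (𝓝 0) := by
      have := ((((hr.pow 2).mul hy).add (hy.pow 3)).const_mul 2)
      simpa using this
    refine squeeze_zero_norm' ?_ hb
    have hsmall := hy.eventually (Metric.ball_mem_nhds 0 (show (0 : ℝ) < 1 / 2 by norm_num))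
    filter_upwards [eventually_gt_atTop (-b), eventually_ge_atTop (0 : ℝ), hsmall] with L hL hL0 hs
    have hpos : 0 < L + b := by linarith
    obtain ⟨y, hyd⟩ : ∃ y, y = 1 / (L + b) := ⟨_, rfl⟩
    have hy0 : 0 < y := by rw [hyd]; positivity
    have hs' : dist (1 / (L + b)) 0 < 1 / 2 := hs
    rw [← hyd, dist_zero_right, Real.norm_eq_abs, abs_of_pos hy0] at hs'
    rw [← hyd]
    have h1 := Real.abs_log_sub_add_sum_range_le (x := y) (by rw [abs_of_pos hy0]; linarith) 2
    rw [Finset.sum_range_succ, Finset.sum_range_one, abs_of_pos hy0] at h1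
    have h2 : y ^ (2 + 1) / (1 - y) ≤ 2 * y ^ 3 := by
      rw [div_le_iff₀ (by linarith)]
      have h7 : 0 < y ^ 3 := by positivity
      calc y ^ (2 + 1) = y ^ 3 * 1 := by ring
        _ ≤ y ^ 3 * (2 * (1 - y)) := mul_le_mul_of_nonneg_left (by linarith) h7.le
        _ = 2 * y ^ 3 * (1 - y) := by ring
    have h3 : |Real.log (1 - y) + y + y ^ 2 / 2| ≤ 2 * y ^ 3 := by
      refine le_trans (le_of_eq ?_) (h1.trans h2)
      congr 1
      norm_num
      ring
    have h4 : (⌈L ^ 2⌉₊ : ℝ) ≤ L ^ 2 + 1 := (Nat.ceil_lt_add_one (by positivity)).le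
    rw [norm_mul, Real.norm_natCast, Real.norm_eq_abs]
    have h5 : (⌈L ^ 2⌉₊ : ℝ) * |Real.log (1 - y) + y + y ^ 2 / 2| ≤ (L ^ 2 + 1) * (2 * y ^ 3) :=
      mul_le_mul h4 h3 (abs_nonneg _) (by positivity)
    refine h5.trans (le_of_eq ?_)
    have h6 : L / (L + b) = L * y := by rw [hyd]; ring
    rw [h6]
    ring
  have hc : Tendsto (fun L : ℝ => ((⌈L ^ 2⌉₊ : ℝ) - L ^ 2) * (1 / (L + b) + (1 / (L + b)) ^ 2 / 2)) atTop (𝓝 0) := by
    have hb : Tendsto (fun L : ℝ => |1 / (L + b) + (1 / (L + b)) ^ 2 / 2|) atTop (𝓝 0) := by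
      have := (hy.add ((hy.pow 2).div_const 2)).abs
      simpa using this
    refine squeeze_zero_norm' ?_ hb
    filter_upwards with L
    have h4 : (⌈L ^ 2⌉₊ : ℝ) ≤ L ^ 2 + 1 := (Nat.ceil_lt_add_one (by positivity)).le
    have h5 : L ^ 2 ≤ (⌈L ^ 2⌉₊ : ℝ) := Nat.le_ceil _
    rw [norm_mul, Real.norm_eq_abs, Real.norm_eq_abs, abs_of_nonneg (show 0 ≤ (⌈L ^ 2⌉₊ : ℝ) - L ^ 2 by linarith)]
    have := abs_nonneg (1 / (L + b) + (1 / (L + b)) ^ 2 / 2)
    nlinarith
  have h1 : Tendsto (fun L : ℝ => b * (L / (L + b)) - (L / (L + b)) ^ 2 / 2 -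
      ((⌈L ^ 2⌉₊ : ℝ) - L ^ 2) * (1 / (L + b) + (1 / (L + b)) ^ 2 / 2) +
      (⌈L ^ 2⌉₊ : ℝ) * (Real.log (1 - 1 / (L + b)) + (1 / (L + b)) + (1 / (L + b)) ^ 2 / 2)) atTop
      (𝓝 (b * 1 - 1 ^ 2 / 2 - 0 + 0)) :=
    ((((hr.const_mul b).sub ((hr.pow 2).div_const 2))).sub hc).add hR
  have e : b * 1 - 1 ^ 2 / 2 - 0 + 0 = b - 1 / 2 := by ring
  rw [e] at h1
  refine h1.congr' ?_
  filter_upwards [eventually_gt_atTop (-b)] with L hL
  have : L + b ≠ 0 := by linarith
  obtain ⟨y, hyd⟩ : ∃ y, y = 1 / (L + b) := ⟨_, rfl⟩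
  have h6 : L / (L + b) = L * y := by rw [hyd]; ring
  have h7 : b * y = 1 - L * y := by rw [hyd]; field_simp; ring
  rw [← hyd, h6]
  have h8 : b * (L * y) = L * (b * y) := by ring
  rw [h8, h7]
  ring

/-- the probability of a run, real variable -/
lemma run_prob (a b : ℝ) : Tendsto (fun L : ℝ => (1 / (L + a) * (1 - 1 / (L + b)) ^ ⌈L ^ 2⌉₊) * (Real.exp L * L))
    atTop (𝓝 (Real.exp (b - 1 / 2))) := by
  have h1 := (tendsto_ratio a).mul ((Real.continuous_exp.tendsto _).comp (exponent b))
  rw [one_mul] at h1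
  refine h1.congr' ?_
  filter_upwards [eventually_gt_atTop (1 - b)] with L hL
  have hpos : 0 < 1 - 1 / (L + b) := by
    have h2 : 1 < L + b := by linarith
    have : 1 / (L + b) < 1 := by
      rw [div_lt_one (by linarith)]
      exact h2
    linarith
  simp only [Function.comp]
  rw [Real.exp_add, mul_comm (⌈L ^ 2⌉₊ : ℝ), Real.exp_mul, Real.exp_log hpos, Real.rpow_natCast]
  ring

/-- the probability of a run -/
lemma run_prob_nat (a b : ℝ) : Tendsto (fun k : ℕ =>
    (1 / (Real.log (k + 1) + a) * (1 - 1 / (Real.log (k + 1) + b)) ^ ⌈Real.log (k + 1) ^ 2⌉₊) *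
      (((k : ℝ) + 1) * Real.log (k + 1))) atTop (𝓝 (Real.exp (b - 1 / 2))) := by
  have h1 : Tendsto (fun k : ℕ => Real.log ((k : ℝ) + 1)) atTop atTop :=
    Real.tendsto_log_atTop.comp (tendsto_atTop_add_const_right _ 1 tendsto_natCast_atTop_atTop)
  refine ((run_prob a b).comp h1).congr fun k => ?_
  simp only [Function.comp]
  rw [Real.exp_log (by positivity)]

lemma ll_diff : Tendsto (fun k : ℕ => (ll ((k : ℝ) + 2) - ll ((k : ℝ) + 1)) * (((k : ℝ) + 1) * Real.log (k + 1)))
    atTop (𝓝 1) := by
  have hx : Tendsto (fun k : ℕ => (k : ℝ) + 1) atTop atTop :=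
    tendsto_atTop_add_const_right _ 1 tendsto_natCast_atTop_atTop
  have hreal : Tendsto (fun x : ℝ => (ll (x + 1) - ll x) * (x * Real.log x)) atTop (𝓝 1) := by
    have hlow : Tendsto (fun x : ℝ => x / (x + 1) * (Real.log x / (Real.log x + 1))) atTop (𝓝 1) := by
      have := (tendsto_ratio 1).mul ((tendsto_ratio 1).comp Real.tendsto_log_atTop)
      simpa using this
    refine tendsto_of_tendsto_of_tendsto_of_le_of_le' hlow tendsto_const_nhds ?_ ?_
    · filter_upwards [eventually_ge_atTop (3 : ℝ)] with x hx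
      have hlogx : 1 < Real.log x := by
        rw [Real.lt_log_iff_exp_lt (by linarith)]
        have := Real.exp_one_lt_d9
        linarith
      have h1 : 1 / (x + 1) ≤ Real.log (x + 1) - Real.log x := by
        rw [← Real.log_div (by linarith) (by linarith)]
        have := Real.one_sub_inv_le_log_of_pos (show 0 < (x + 1) / x by positivity)
        have h2 : 1 - ((x + 1) / x)⁻¹ = 1 / (x + 1) := by
          have : x ≠ 0 := by linarith
          have : x + 1 ≠ 0 := by linarith
          field_simp
          ring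
        linarith
      have h0 : 0 < Real.log (x + 1) := Real.log_pos (by linarith)
      have h2 : (Real.log (x + 1) - Real.log x) / Real.log (x + 1) ≤ ll (x + 1) - ll x := by
        unfold ll
        rw [← Real.log_div h0.ne' (by linarith)]
        have := Real.one_sub_inv_le_log_of_pos (show 0 < Real.log (x + 1) / Real.log x by positivity)
        have h3 : 1 - (Real.log (x + 1) / Real.log x)⁻¹ = (Real.log (x + 1) - Real.log x) / Real.log (x + 1) := by
          rw [inv_div]
          field_simp
        linarith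
      have h3 : Real.log (x + 1) ≤ Real.log x + 1 := by
        have h4 : Real.log (x + 1) ≤ Real.log (x * Real.exp 1) := by
          apply Real.log_le_log (by linarith)
          have := Real.add_one_le_exp (1 : ℝ)
          nlinarith
        rw [Real.log_mul (by linarith) (Real.exp_pos 1).ne', Real.log_exp] at h4
        exact h4
      have h4 : 1 / (x + 1) / (Real.log x + 1) ≤ ll (x + 1) - ll x := by
        refine le_trans ?_ h2
        exact div_le_div₀ (le_trans (by positivity) h1) h1 h0 h3
      calc x / (x + 1) * (Real.log x / (Real.log x + 1))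
          = 1 / (x + 1) / (Real.log x + 1) * (x * Real.log x) := by ring
        _ ≤ (ll (x + 1) - ll x) * (x * Real.log x) := mul_le_mul_of_nonneg_right h4 (by positivity)
    · filter_upwards [eventually_ge_atTop (3 : ℝ)] with x hx
      have hlogx : 1 < Real.log x := by
        rw [Real.lt_log_iff_exp_lt (by linarith)]
        have := Real.exp_one_lt_d9
        linarith
      have h5 : ll (x + 1) - ll x ≤ 1 / (x * Real.log x) := by
        unfold ll
        have h6 : 0 < Real.log (x + 1) := Real.log_pos (by linarith)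
        rw [← Real.log_div h6.ne' (by linarith)]
        have h7 : Real.log (x + 1) / Real.log x ≤ 1 + 1 / (x * Real.log x) := by
          have h8 : Real.log (x + 1) ≤ Real.log x + 1 / x := by
            have h9 : Real.log (x + 1) = Real.log x + Real.log (1 + 1 / x) := by
              rw [← Real.log_mul (by linarith) (by positivity)]
              congr 1
              field_simp
            have h10 := Real.log_le_sub_one_of_pos (show 0 < 1 + 1 / x by positivity)
            linarith
          rw [div_le_iff₀ (by linarith)]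
          have h11 : (1 + 1 / (x * Real.log x)) * Real.log x = Real.log x + 1 / x := by
            field_simp
          linarith
        have h8 := Real.log_le_sub_one_of_pos (show 0 < Real.log (x + 1) / Real.log x by positivity)
        linarith
      calc (ll (x + 1) - ll x) * (x * Real.log x) ≤ 1 / (x * Real.log x) * (x * Real.log x) :=
            mul_le_mul_of_nonneg_right h5 (by positivity)
        _ = 1 := by field_simp
  refine (hreal.comp hx).congr fun k => ?_
  simp only [Function.comp]
  ring_nf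

/-- summation -/
theorem sum_asymp (x : ℕ → ℝ) (c : ℝ)
    (hx : Tendsto (fun k : ℕ => x k * (((k : ℝ) + 1) * Real.log (k + 1))) atTop (𝓝 c)) :
    Tendsto (fun n : ℕ => (∑ k ∈ Finset.range n, x k) / ll n) atTop (𝓝 c) := by
  set w : ℕ → ℝ := fun k => if k = 0 then 0 else ll ((k : ℝ) + 2) - ll ((k : ℝ) + 1) with hw
  have hw0 : ∀ k, 0 ≤ w k := by
    intro k
    by_cases hk : k = 0
    · simp [hw, hk]
    · simp only [hw, if_neg hk]
      have h1 : (1 : ℝ) ≤ k := by exact_mod_cast Nat.pos_of_ne_zero hk
      have h2 : 0 < Real.log ((k : ℝ) + 1) := Real.log_pos (by linarith)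
      have h3 : Real.log ((k : ℝ) + 1) ≤ Real.log ((k : ℝ) + 2) := Real.log_le_log (by linarith) (by linarith)
      have := Real.log_le_log h2 h3
      unfold ll
      linarith
  have hsum : ∀ n : ℕ, 1 ≤ n → ∑ k ∈ Finset.range n, w k = ll ((n : ℝ) + 1) - ll 2 := by
    intro n hn
    induction n, hn using Nat.le_induction with
    | base => simp [hw]; ring_nf
    | succ n hn ih =>
      rw [Finset.sum_range_succ, ih]
      have : n ≠ 0 := by omega
      simp only [hw, if_neg this]
      push_cast
      ring_nf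
  have hll : Tendsto (fun n : ℕ => ll (n : ℝ)) atTop atTop :=
    (Real.tendsto_log_atTop.comp Real.tendsto_log_atTop).comp tendsto_natCast_atTop_atTop
  have hWtop : Tendsto (fun n => ∑ k ∈ Finset.range n, w k) atTop atTop := by
    have h1 : Tendsto (fun n : ℕ => ll ((n : ℝ) + 1) - ll 2) atTop atTop := by
      have := (tendsto_add_atTop_iff_nat 1).2 hll
      have h2 := tendsto_atTop_add_const_right atTop (-ll 2) this
      refine h2.congr fun n => ?_
      push_cast
      ring
    refine h1.congr' ?_
    filter_upwards [eventually_ge_atTop 1] with n hn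
    exact (hsum n hn).symm
  have hlo : (fun k => x k - c * w k) =o[atTop] w := by
    rw [Asymptotics.isLittleO_iff_tendsto']
    · have h1 := (hx.sub (ll_diff.const_mul c)).div ll_diff one_ne_zero
      rw [mul_one, sub_self, zero_div] at h1
      refine h1.congr' ?_
      filter_upwards [eventually_ge_atTop 1] with k hk
      have hk0 : k ≠ 0 := by omega
      have hk1 : (1 : ℝ) ≤ k := by exact_mod_cast hk
      have h2 : 0 < Real.log ((k : ℝ) + 1) := Real.log_pos (by linarith)
      have h3 : 0 < ((k : ℝ) + 1) * Real.log (k + 1) := by positivity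
      simp only [Pi.div_apply, hw, if_neg hk0]
      have h4 : x k * (((k : ℝ) + 1) * Real.log (k + 1)) - c * ((ll (k + 2) - ll (k + 1)) * ((k + 1) * Real.log (k + 1))) =
          (x k - c * (ll (k + 2) - ll (k + 1))) * ((k + 1) * Real.log (k + 1)) := by ring
      rw [h4, mul_div_mul_right _ _ h3.ne']
    · filter_upwards [eventually_ge_atTop 1] with k hk h0
      exfalso
      have hk0 : k ≠ 0 := by omega
      have hk1 : (1 : ℝ) ≤ k := by exact_mod_cast hk
      have h2 : 0 < Real.log ((k : ℝ) + 1) := Real.log_pos (by linarith)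
      have h3 : Real.log ((k : ℝ) + 1) < Real.log ((k : ℝ) + 2) := Real.log_lt_log (by linarith) (by linarith)
      have := Real.log_lt_log h2 h3
      simp only [hw, if_neg hk0, ll] at h0
      linarith
  have hS := hlo.sum_range hw0 hWtop
  -- the ratio `W n / ll n → 1`
  have hW1 : Tendsto (fun n : ℕ => (∑ k ∈ Finset.range n, w k) / ll n) atTop (𝓝 1) := by
    have h1 : Tendsto (fun n : ℕ => ll ((n : ℝ) + 1) / ll n) atTop (𝓝 1) := by
      have hd : Tendsto (fun n : ℕ => ll ((n : ℝ) + 1) - ll n) atTop (𝓝 0) := by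
        have h2 : Tendsto (fun k : ℕ => ((k : ℝ) + 1) * Real.log (k + 1)) atTop atTop := by
          have h3 : Tendsto (fun k : ℕ => (k : ℝ) + 1) atTop atTop :=
            tendsto_atTop_add_const_right _ 1 tendsto_natCast_atTop_atTop
          exact h3.atTop_mul_atTop₀ (Real.tendsto_log_atTop.comp h3)
        have h3 := ll_diff.div_atTop h2
        have h4 : Tendsto (fun k : ℕ => ll ((k : ℝ) + 2) - ll ((k : ℝ) + 1)) atTop (𝓝 0) := by
          refine h3.congr' ?_
          filter_upwards [eventually_ge_atTop 1] with k hk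
          have hk1 : (1 : ℝ) ≤ k := by exact_mod_cast hk
          have h2 : 0 < Real.log ((k : ℝ) + 1) := Real.log_pos (by linarith)
          field_simp
        refine (tendsto_add_atTop_iff_nat 1).1 (h4.congr fun k => ?_)
        push_cast
        ring_nf
      have h2 := (hd.div_atTop hll).const_add 1
      rw [add_zero] at h2
      refine h2.congr' ?_
      filter_upwards [hll.eventually_gt_atTop 0] with n hn
      field_simp
      ring
    have h2 : Tendsto (fun n : ℕ => ll ((n : ℝ) + 1) / ll n - ll 2 / ll n) atTop (𝓝 (1 - 0)) :=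
      h1.sub (tendsto_const_nhds.div_atTop hll)
    rw [sub_zero] at h2
    refine h2.congr' ?_
    filter_upwards [eventually_ge_atTop 1] with n hn
    rw [hsum n hn]
    ring
  have hS' : Tendsto (fun n : ℕ => (∑ k ∈ Finset.range n, (x k - c * w k)) / ∑ k ∈ Finset.range n, w k) atTop (𝓝 0) :=
    hS.tendsto_div_nhds_zero
  have h1 := (hS'.mul hW1).add (hW1.const_mul c)
  rw [zero_mul, zero_add, mul_one] at h1
  refine h1.congr' ?_
  filter_upwards [hWtop.eventually_gt_atTop 0] with n hn
  rw [Finset.sum_sub_distrib, ← Finset.mul_sum]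
  field_simp
  ring

end Pool.Agent.R528.RM
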