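import Mathlib
import Pool.Agent.H50.G.B.R528.RM.Asym
set_option autoImplicit false
set_option linter.unusedSectionVars false

/-! # Lower bounds for binomial probabilities -/

open MeasureTheory Filter Set
open scoped ENNReal Topology

namespace Pool.Agent.R528.RM

/-- an upper bound for the factorial -/
lemma fact_le (K : ℕ) (hK : 1 ≤ K) : (K.factorial : ℝ) ≤ Real.exp 1 * K * ((K : ℝ) / Real.exp 1) ^ K := by
  induction K, hK using Nat.le_induction with
  | base => simp
  | succ K hK ih =>
    have hK' : (0 : ℝ) < K := by exact_mod_cast hK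
    rw [Nat.factorial_succ]
    push_cast
    have h1 : Real.exp 1 ≤ (((K : ℝ) + 1) / K) ^ (K + 1) := by
      have h2 : 1 / ((K : ℝ) + 1) ≤ Real.log (((K : ℝ) + 1) / K) := by
        have := Real.one_sub_inv_le_log_of_pos (show 0 < ((K : ℝ) + 1) / K by positivity)
        have h3 : 1 - (((K : ℝ) + 1) / K)⁻¹ = 1 / ((K : ℝ) + 1) := by
          field_simp
          ring
        linarith
      have h3 : (1 : ℝ) ≤ ((K + 1 : ℕ) : ℝ) * Real.log (((K : ℝ) + 1) / K) := by
        push_cast
        calc (1 : ℝ) = ((K : ℝ) + 1) * (1 / ((K : ℝ) + 1)) := by field_simp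
          _ ≤ _ := mul_le_mul_of_nonneg_left h2 (by positivity)
      calc Real.exp 1 ≤ Real.exp (((K + 1 : ℕ) : ℝ) * Real.log (((K : ℝ) + 1) / K)) := Real.exp_le_exp.2 h3
        _ = (((K : ℝ) + 1) / K) ^ (K + 1) := by
          rw [Real.exp_nat_mul, Real.exp_log (by positivity)]
    calc ((K : ℝ) + 1) * K.factorial ≤ (K + 1) * (Real.exp 1 * K * ((K : ℝ) / Real.exp 1) ^ K) :=
          mul_le_mul_of_nonneg_left ih (by positivity)
      _ = (K + 1) * (Real.exp 1) * ((K : ℝ) ^ (K + 1) / Real.exp 1 ^ (K + 1)) * Real.exp 1 := by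
          rw [div_pow]
          field_simp
          ring
      _ ≤ (K + 1) * (Real.exp 1) * ((K : ℝ) ^ (K + 1) / Real.exp 1 ^ (K + 1)) * (((K : ℝ) + 1) / K) ^ (K + 1) :=
          mul_le_mul_of_nonneg_left h1 (by positivity)
      _ = Real.exp 1 * (K + 1) * (((K : ℝ) + 1) / Real.exp 1) ^ (K + 1) := by
          rw [div_pow, div_pow]
          field_simp

/-- a lower bound for binomial coefficients -/
lemma choose_ge (H K : ℕ) (hK : 1 ≤ K) (hH : K < H) :
    Real.exp (K * (1 + Real.log (((H : ℝ) - K) / K)) - Real.log K - 1) ≤ H.choose K := by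
  have hK' : (0 : ℝ) < K := by exact_mod_cast hK
  have hHK : (0 : ℝ) < (H : ℝ) - K := by
    have : (K : ℝ) < H := by exact_mod_cast hH
    linarith
  have h1 : ((H : ℝ) - K) ^ K ≤ (H.descFactorial K : ℝ) := by
    have h2 := Nat.pow_sub_le_descFactorial H K
    have h3 : ((H + 1 - K : ℕ) : ℝ) ^ K ≤ (H.descFactorial K : ℝ) := by exact_mod_cast h2
    refine le_trans ?_ h3
    apply pow_le_pow_left₀ hHK.le
    rw [Nat.cast_sub (by omega)]
    push_cast
    linarith
  have h2 : (H.descFactorial K : ℝ) = K.factorial * H.choose K := by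
    exact_mod_cast Nat.descFactorial_eq_factorial_mul_choose H K
  have hf : (0 : ℝ) < K.factorial := by exact_mod_cast Nat.factorial_pos K
  have h3 : ((H : ℝ) - K) ^ K / K.factorial ≤ H.choose K := by
    rw [div_le_iff₀ hf, mul_comm, ← h2]
    exact h1
  refine le_trans ?_ h3
  have h4 : ((H : ℝ) - K) ^ K / (Real.exp 1 * K * ((K : ℝ) / Real.exp 1) ^ K) ≤ ((H : ℝ) - K) ^ K / K.factorial :=
    div_le_div_of_nonneg_left (by positivity) hf (fact_le K hK)
  refine le_trans (le_of_eq ?_) h4
  have e1 : (K : ℝ) * (1 + Real.log (((H : ℝ) - K) / K)) - Real.log K - 1 =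
      K * Real.log (((H : ℝ) - K) / K * Real.exp 1) - (Real.log K + 1) := by
    rw [Real.log_mul (by positivity) (Real.exp_pos 1).ne', Real.log_exp]
    ring
  rw [e1, Real.exp_sub, Real.exp_add, Real.exp_log hK', Real.exp_nat_mul, Real.exp_log (by positivity)]
  rw [mul_pow, div_pow, div_pow]
  field_simp

/-- the asymptotics of the exponent: if `H ~ lam L²`, `K ~ c L`, `l L → a`, `u L → b`, then the logarithm of
`(number of blocks) * (binomial probability)` is eventually positive when the rate is less than `1` -/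
theorem binom_rate {L : ℕ → ℝ} (hL : Tendsto L atTop atTop) {H K : ℕ → ℕ} {l u : ℕ → ℝ} {lam c a b : ℝ}
    (hlam : 0 < lam) (hc : 0 < c) (ha : 0 < a) (hb : 0 < b)
    (hH : Tendsto (fun i => (H i : ℝ) / L i ^ 2) atTop (𝓝 lam))
    (hK : Tendsto (fun i => (K i : ℝ) / L i) atTop (𝓝 c))
    (hl : Tendsto (fun i => l i * L i) atTop (𝓝 a)) (hu : Tendsto (fun i => u i * L i) atTop (𝓝 b))
    (hrate : 0 < 1 + c * (1 + Real.log (lam * a / c)) - lam * b) :
    ∀ᶠ i in atTop, 1 ≤ Real.exp (L i) / (2 * H i) * ((H i).choose (K i) * l i ^ K i * (1 - u i) ^ (H i - K i)) ∧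
      K i < H i ∧ 0 < l i ∧ u i ≤ 1 / 2 := by
  have hLinv : Tendsto (fun i => (L i)⁻¹) atTop (𝓝 0) := hL.inv_tendsto_atTop
  have hL0 := hL.eventually_gt_atTop 0
  -- basic limits
  have hKL2 : Tendsto (fun i => (K i : ℝ) / L i ^ 2) atTop (𝓝 0) := by
    have := hK.mul hLinv
    rw [mul_zero] at this
    refine this.congr fun i => ?_
    rw [sq, div_mul_eq_div_div, div_eq_mul_inv (_ / _)]
  have hu0 : Tendsto u atTop (𝓝 0) := by
    have := hu.mul hLinv
    rw [mul_zero] at this
    refine this.congr' ?_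
    filter_upwards [hL0] with i hi
    field_simp
  have hratio : Tendsto (fun i => ((H i : ℝ) - K i) * l i / K i) atTop (𝓝 (lam * a / c)) := by
    have h1 := (((hH.sub hKL2).mul hl).div hK hc.ne')
    rw [sub_zero] at h1
    refine h1.congr' ?_
    filter_upwards [hL0, hK.eventually (eventually_gt_nhds hc)] with i hi hKi
    have hK0 : (K i : ℝ) ≠ 0 := by
      intro h
      rw [h, zero_div] at hKi
      exact lt_irrefl _ hKi
    simp only [Pi.div_apply]
    field_simp
  have hlogratio := hratio.log (show lam * a / c ≠ 0 by positivity)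
  have hlogu : Tendsto (fun i => L i * Real.log (1 - u i)) atTop (𝓝 (-b)) := by
    have h1 : HasDerivAt (fun x : ℝ => Real.log (1 - x)) (-1) 0 := by
      have := ((hasDerivAt_id (0 : ℝ)).const_sub 1).log (by norm_num)
      simpa using this
    have h2 := h1.isLittleO
    simp only [sub_zero, Real.log_one, smul_eq_mul] at h2
    have h3 := h2.comp_tendsto hu0
    have h4 : Tendsto (fun i => (Real.log (1 - u i) - u i * -1) * L i) atTop (𝓝 0) := by
      have h5 : (fun i => (Real.log (1 - u i) - u i * -1) * L i) =o[atTop] (fun i => u i * L i) :=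
        h3.mul_isBigO (Asymptotics.isBigO_refl L atTop)
      exact (h5.trans_isBigO (hu.isBigO_one ℝ)).tendsto_div_nhds_zero.congr fun i => by simp
    have h5 := h4.sub hu
    rw [zero_sub] at h5
    refine h5.congr fun i => ?_
    ring
  have hloglim : ∀ {X : ℕ → ℝ} {e : ℝ}, 0 < e → (∀ (r : ℕ), Tendsto (fun i => X i / L i ^ r) atTop (𝓝 e) →
      Tendsto (fun i => Real.log (X i) / L i) atTop (𝓝 0)) := by
    intro X e he r hX
    have h1 := (hX.log he.ne').mul hLinv
    rw [mul_zero] at h1
    have h2 : Tendsto (fun i => Real.log (L i) / L i) atTop (𝓝 0) :=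
      (Real.isLittleO_log_id_atTop.tendsto_div_nhds_zero).comp hL
    have h3 := h1.add (h2.const_mul (r : ℝ))
    rw [mul_zero, add_zero] at h3
    refine h3.congr' ?_
    filter_upwards [hL0, hX.eventually (eventually_gt_nhds he)] with i hi hXi
    have hX0 : X i ≠ 0 := by
      intro h
      rw [h, zero_div] at hXi
      exact lt_irrefl _ hXi
    rw [Real.log_div hX0 (by positivity), Real.log_pow]
    field_simp
    ring
  have hlogK : Tendsto (fun i => Real.log (K i) / L i) atTop (𝓝 0) := hloglim hc 1 (by simpa using hK)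
  have hlogH : Tendsto (fun i => Real.log (2 * H i) / L i) atTop (𝓝 0) := by
    refine hloglim (show 0 < 2 * lam by positivity) 2 ?_
    refine (hH.const_mul 2).congr fun i => ?_
    ring
  -- the exponent divided by `L`
  have hexp : Tendsto (fun i => 1 - Real.log (2 * H i) / L i + (K i : ℝ) / L i *
      (1 + Real.log (((H i : ℝ) - K i) * l i / K i)) - Real.log (K i) / L i - (L i)⁻¹ +
      (H i : ℝ) / L i ^ 2 * (L i * Real.log (1 - u i))) atTop
      (𝓝 (1 - 0 + c * (1 + Real.log (lam * a / c)) - 0 - 0 + lam * (-b))) :=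
    (((((tendsto_const_nhds (x := (1 : ℝ))).sub hlogH).add (hK.mul (hlogratio.const_add 1))).sub hlogK).sub hLinv).add
      (hH.mul hlogu)
  have hpos : 0 < 1 - 0 + c * (1 + Real.log (lam * a / c)) - 0 - 0 + lam * (-b) := by linarith
  have hHK : Tendsto (fun i => (H i : ℝ) / L i ^ 2 - (K i : ℝ) / L i ^ 2) atTop (𝓝 lam) := by
    have := hH.sub hKL2
    rwa [sub_zero] at this
  filter_upwards [hL0, hexp.eventually (eventually_gt_nhds hpos), hK.eventually (eventually_gt_nhds hc),
    hH.eventually (eventually_gt_nhds hlam), hl.eventually (eventually_gt_nhds ha),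
    hu0.eventually (eventually_lt_nhds (show (0 : ℝ) < 1 / 2 by norm_num)),
    hHK.eventually (eventually_gt_nhds hlam), hu.eventually (eventually_gt_nhds hb)] with i hi hE hKi hHi hli hui hHKi hub
  have hK0 : 0 < (K i : ℝ) := by
    by_contra hcon
    push Not at hcon
    have h0 : (K i : ℝ) = 0 := le_antisymm hcon (Nat.cast_nonneg _)
    rw [h0, zero_div] at hKi
    exact lt_irrefl _ hKi
  have hH0 : 0 < (H i : ℝ) := by
    by_contra hcon
    push Not at hcon
    have h0 : (H i : ℝ) = 0 := le_antisymm hcon (Nat.cast_nonneg _)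
    rw [h0, zero_div] at hHi
    exact lt_irrefl _ hHi
  have hl0 : 0 < l i := by
    by_contra hcon
    push Not at hcon
    have : l i * L i ≤ 0 := mul_nonpos_of_nonpos_of_nonneg hcon hi.le
    linarith
  have hHKpos : 0 < (H i : ℝ) - K i := by
    have h1 : 0 < ((H i : ℝ) - K i) / L i ^ 2 := by rw [sub_div]; exact hHKi
    by_contra hcon
    push Not at hcon
    have : ((H i : ℝ) - K i) / L i ^ 2 ≤ 0 := div_nonpos_of_nonpos_of_nonneg hcon (by positivity)
    linarith
  have hKH : K i < H i := by
    have : (K i : ℝ) < H i := by linarith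
    exact_mod_cast this
  refine ⟨?_, hKH, hl0, hui.le⟩
  have hu1 : 0 < 1 - u i := by linarith
  have hK1 : 1 ≤ K i := by exact_mod_cast hK0
  have h1 := choose_ge (H i) (K i) hK1 hKH
  have hup : 0 < u i := by
    by_contra hcon
    push Not at hcon
    have : u i * L i ≤ 0 := mul_nonpos_of_nonpos_of_nonneg hcon hi.le
    linarith
  have hlog0 : Real.log (1 - u i) ≤ 0 := Real.log_nonpos (by linarith) (by linarith)
  have h2 : Real.exp (H i * Real.log (1 - u i)) ≤ (1 - u i) ^ (H i - K i) := by
    have h3 : (1 - u i) ^ (H i - K i) = Real.exp (((H i - K i : ℕ) : ℝ) * Real.log (1 - u i)) := by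
      rw [Real.exp_nat_mul, Real.exp_log hu1]
    rw [h3]
    apply Real.exp_le_exp.2
    apply mul_le_mul_of_nonpos_right _ hlog0
    exact_mod_cast Nat.sub_le _ _
  have h3 : l i ^ K i = Real.exp (K i * Real.log (l i)) := by
    rw [Real.exp_nat_mul, Real.exp_log hl0]
  have h4 : Real.exp (L i) / (2 * H i) = Real.exp (L i - Real.log (2 * H i)) := by
    rw [Real.exp_sub, Real.exp_log (by positivity)]
  rw [h3, h4]
  have h5 : Real.exp (K i * (1 + Real.log (((H i : ℝ) - K i) / K i)) - Real.log (K i) - 1) *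
      Real.exp (K i * Real.log (l i)) * Real.exp (H i * Real.log (1 - u i)) ≤
      (H i).choose (K i) * Real.exp (K i * Real.log (l i)) * (1 - u i) ^ (H i - K i) :=
    mul_le_mul (mul_le_mul_of_nonneg_right h1 (Real.exp_pos _).le) h2 (Real.exp_pos _).le (by positivity)
  refine le_trans ?_ (mul_le_mul_of_nonneg_left h5 (Real.exp_pos _).le)
  rw [← Real.exp_add, ← Real.exp_add, ← Real.exp_add]
  apply Real.one_le_exp
  have h6 : Real.log (((H i : ℝ) - K i) * l i / K i) = Real.log (((H i : ℝ) - K i) / K i) + Real.log (l i) := by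
    rw [← Real.log_mul (by positivity) hl0.ne']
    congr 1
    ring
  rw [h6] at hE
  have h7 := mul_pos hi hE
  refine le_trans h7.le (le_of_eq ?_)
  field_simp
  ring

end Pool.Agent.R528.RM
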