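import Mathlib
import Pool.Agent.H50.G.S.R528.RM.Tails
import Pool.Agent.H50.G.B.R528.RM.Binom
set_option autoImplicit false
set_option linter.unusedSectionVars false

/-! # Extreme numbers of members in windows of length `lam log²` -/

open MeasureTheory Filter Set
open scoped ENNReal Topology

namespace Pool.Agent.R528.RM

variable {Ω : Type} {m0 : MeasurableSpace Ω} {μ : Measure Ω} [IsProbabilityMeasure μ]
  {ℱ : Filtration ℕ m0} {A : ℕ → Set Ω}

lemma pow_two_exp (i : ℕ) : (2 : ℝ) ^ i = Real.exp ((i : ℝ) * Real.log 2) := by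
  rw [mul_comm, Real.exp_mul, Real.exp_log (by norm_num), Real.rpow_natCast]

/-- prescribed counts in windows occur infinitely often when the rate is less than one -/
theorem freq_gen (hA : ∀ n, MeasurableSet[ℱ n] (A n))
    (hd : ∀ᵐ ω ∂μ, Tendsto (fun n : ℕ => dens μ ℱ A n ω * Real.log n) atTop (𝓝 1))
    {lam c : ℝ} (hlam : 0 < lam) (hc : 0 < c) (H K : ℕ → ℕ)
    (hH : Tendsto (fun i : ℕ => (H i : ℝ) / ((i : ℝ) * Real.log 2) ^ 2) atTop (𝓝 lam))
    (hK : Tendsto (fun i : ℕ => (K i : ℝ) / ((i : ℝ) * Real.log 2)) atTop (𝓝 c))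
    (hrate : 0 < 1 + c * (1 + Real.log (lam / c)) - lam) :
    ∀ᵐ ω ∂μ, ∀ i₁ : ℕ, ∃ i, i₁ ≤ i ∧ ∃ t, 2 ^ i ≤ t ∧ t + H i ≤ 2 ^ (i + 1) ∧ cnt A t (H i) ω = K i := by
  obtain ⟨hl20, hl21, hl22⟩ := log_two_facts
  -- choose `δ`
  obtain ⟨δ, hδ0, hδ1, hδ⟩ : ∃ δ : ℝ, 0 < δ ∧ δ < 1 ∧
      0 < 1 + c * (1 + Real.log (lam * (1 - δ) / c)) - lam * (1 + δ) := by
    have hcont : ContinuousAt (fun δ : ℝ => 1 + c * (1 + Real.log (lam * (1 - δ) / c)) - lam * (1 + δ)) 0 := by
      have h1 : lam * (1 - 0) / c ≠ 0 := by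
        rw [sub_zero, mul_one]
        positivity
      fun_prop (disch := assumption)
    have h0 : (fun δ : ℝ => 1 + c * (1 + Real.log (lam * (1 - δ) / c)) - lam * (1 + δ)) 0 =
        1 + c * (1 + Real.log (lam / c)) - lam := by simp
    have h1 := hcont.eventually (eventually_gt_nhds (show (0 : ℝ) <
      (fun δ : ℝ => 1 + c * (1 + Real.log (lam * (1 - δ) / c)) - lam * (1 + δ)) 0 by rw [h0]; exact hrate))
    obtain ⟨ε, hε, hball⟩ := Metric.eventually_nhds_iff.1 h1
    refine ⟨min (ε / 2) (1 / 2), lt_min (by positivity) (by norm_num), lt_of_le_of_lt (min_le_right _ _) (by norm_num), ?_⟩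
    apply hball
    rw [Real.dist_eq, sub_zero, abs_of_pos (lt_min (by positivity) (by norm_num))]
    exact lt_of_le_of_lt (min_le_left _ _) (by linarith)
  set V := VF μ ℱ A δ with hV
  set L : ℕ → ℝ := fun i => (i : ℝ) * Real.log 2 with hL
  have hLt : Tendsto L atTop atTop := tendsto_iL
  set l : ℕ → ℝ := fun i => (1 - δ) / (L i + 1) with hl
  set u : ℕ → ℝ := fun i => (1 + δ) / L i with hu
  have hlL : Tendsto (fun i => l i * L i) atTop (𝓝 (1 - δ)) := by
    have h1 := ((tendsto_ratio 1).comp hLt).const_mul (1 - δ)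
    rw [mul_one] at h1
    refine h1.congr fun i => ?_
    simp only [hl, Function.comp]
    ring
  have huL : Tendsto (fun i => u i * L i) atTop (𝓝 (1 + δ)) := by
    refine tendsto_const_nhds.congr' ?_
    filter_upwards [hLt.eventually_gt_atTop 0] with i hi
    simp only [hu]
    field_simp
  have hrate' := binom_rate hLt hlam hc (show 0 < 1 - δ by linarith) (show 0 < 1 + δ by linarith) hH hK hlL huL hδ
  have hHexp : ∀ᶠ i in atTop, 2 * H i ≤ 2 ^ i ∧ 1 ≤ H i := by
    have h1 : ∀ᶠ x : ℝ in atTop, 2 * ((lam + 1) * x ^ 2) ≤ Real.exp x := by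
      have := (Real.isLittleO_pow_exp_atTop (n := 2)).def (show (0 : ℝ) < 1 / (2 * (lam + 1)) by positivity)
      filter_upwards [this] with x hx
      rw [Real.norm_of_nonneg (by positivity), Real.norm_of_nonneg (Real.exp_pos _).le] at hx
      calc 2 * ((lam + 1) * x ^ 2) = 2 * (lam + 1) * x ^ 2 := by ring
        _ ≤ 2 * (lam + 1) * (1 / (2 * (lam + 1)) * Real.exp x) := mul_le_mul_of_nonneg_left hx (by positivity)
        _ = Real.exp x := by field_simp
    filter_upwards [hLt.eventually h1, hLt.eventually_gt_atTop 0,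
      hH.eventually (eventually_lt_nhds (show lam < lam + 1 by linarith)),
      hH.eventually (eventually_gt_nhds hlam)] with i h1 h2 h3 h4
    have h2' : 0 < (i : ℝ) * Real.log 2 := h2
    rw [div_lt_iff₀ (by positivity)] at h3
    have hH0 : 0 < (H i : ℝ) := by
      by_contra hcon
      push Not at hcon
      have h0 : (H i : ℝ) = 0 := le_antisymm hcon (Nat.cast_nonneg _)
      rw [h0, zero_div] at h4
      exact lt_irrefl _ h4
    constructor
    · have h5 : (2 : ℝ) * H i ≤ 2 ^ i := by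
        rw [pow_two_exp]
        have h1' : 2 * ((lam + 1) * ((i : ℝ) * Real.log 2) ^ 2) ≤ Real.exp ((i : ℝ) * Real.log 2) := h1
        linarith
      exact_mod_cast h5
    · exact_mod_cast hH0
  obtain ⟨i₀, hi₀⟩ := eventually_atTop.1 ((hrate'.and hHexp).and ((hLt.eventually_ge_atTop 2)))
  set M : ℕ → ℕ := fun i => 2 ^ i / H i with hM
  set D : ℕ → ℕ → Set Ω := fun i m => {ω | cnt A (2 ^ i + H i * m) (H i) ω = K i} ∪ WV V (2 ^ i + H i * m) (H i) with hD
  have hHM : ∀ i, i₀ ≤ i → H i * M i ≤ 2 ^ i := fun i _ => Nat.mul_div_le _ _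
  have hblock : ∀ i, i₀ ≤ i → ∀ m, m < M i → 2 ^ i + H i * m + H i ≤ 2 ^ (i + 1) := by
    intro i hi m hm
    have h1 : H i * m + H i ≤ 2 ^ i := by
      calc H i * m + H i = H i * (m + 1) := by ring
        _ ≤ H i * M i := Nat.mul_le_mul_left _ hm
        _ ≤ _ := hHM i hi
    have e : 2 ^ (i + 1) = 2 ^ i + 2 ^ i := by rw [pow_succ]; ring
    omega
  have hmain := io_blocks (μ := μ) (ℱ := ℱ) (D := D) (H := H) (M := M) (i₀ := i₀) hHM
    (by
      intro i _ m _
      have e : 2 ^ i + H i * (m + 1) = 2 ^ i + H i * m + H i := by ring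
      rw [e]
      exact @MeasurableSet.union _ (ℱ (2 ^ i + H i * m + H i)) _ _ (cnt_meas hA _ _ _) (WV_meas (fun n => VF_meas δ n) _ _))
    (fun i => (H i).choose (K i) * l i ^ K i * (1 - u i) ^ (H i - K i))
    (by
      intro i hi m hm C hC
      obtain ⟨⟨⟨h1, h2, h3, h4⟩, h5, h6⟩, h7⟩ := hi₀ i hi
      have hLi : 2 ≤ L i := h7
      have hlu : l i ≤ u i := by
        simp only [hl, hu]
        apply div_le_div₀ (by linarith) (by linarith) (by linarith) (by linarith)
      refine cnt_ge (μ := μ) hA (fun n => VF_meas δ n) h3.le (by linarith) hlu (H i) (2 ^ i + H i * m) ?_ (K i) h2.le C hC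
      intro n hn1 hn2 ω hω
      have hb := hblock i hi m hm
      obtain ⟨b1, b2⟩ := log_dyadic (i := i) (n := n) (by omega) (by omega)
      exact VF_bounds hδ1.le (by linarith) b1 b2 hω)
    (by
      intro i hi
      obtain ⟨⟨⟨h1, h2, h3, h4⟩, h5, h6⟩, h7⟩ := hi₀ i hi
      have hHpos : (0 : ℝ) < H i := by exact_mod_cast h6
      have hMge : Real.exp (L i) / (2 * H i) ≤ M i := by
        have e : Real.exp (L i) = (2 : ℝ) ^ i := (pow_two_exp i).symm
        rw [e, div_le_iff₀ (by positivity)]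
        have h8 : 2 ^ i < H i * (M i + 1) := Nat.lt_mul_div_succ (2 ^ i) (by omega)
        have h9 : (2 : ℝ) ^ i < H i * (M i + 1) := by exact_mod_cast h8
        have h10 : (2 : ℝ) * H i ≤ 2 ^ i := by exact_mod_cast h5
        nlinarith
      have hp0 : 0 ≤ ((H i).choose (K i) : ℝ) * l i ^ K i * (1 - u i) ^ (H i - K i) := by
        have : 0 ≤ 1 - u i := by linarith
        positivity
      exact h1.trans (mul_le_mul_of_nonneg_right hMge hp0))
  filter_upwards [hmain, hd] with ω h1 h2 i₁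
  obtain ⟨n₀, hn₀⟩ := no_VF h2 hδ0
  obtain ⟨i, hi, hii, m, hm, hDm⟩ := h1 (max i₁ n₀)
  refine ⟨i, (le_max_left _ _).trans hi, 2 ^ i + H i * m, Nat.le_add_right _ _, hblock i hii m hm, ?_⟩
  rcases hDm with h3 | ⟨n, hn1, _, hn3⟩
  · exact h3
  · exfalso
    refine hn₀ n ?_ hn3
    have h4 : i < 2 ^ i := Nat.lt_two_pow_self
    have h5 : n₀ ≤ i := (le_max_right _ _).trans hi
    omega

/-- counts above `s lam log x` occur infinitely often -/
theorem er_upper_io (hA : ∀ n, MeasurableSet[ℱ n] (A n))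
    (hd : ∀ᵐ ω ∂μ, Tendsto (fun n : ℕ => dens μ ℱ A n ω * Real.log n) atTop (𝓝 1))
    {lam s : ℝ} (hlam : 0 < lam) (hs : 0 < s) (hI : lam * II s < 1) :
    ∀ᵐ ω ∂μ, ∃ᶠ x : ℕ in atTop, s * lam * Real.log x < cnt A x (wl lam x) ω := by
  obtain ⟨hl20, hl21, hl22⟩ := log_two_facts
  -- choose `s' > s`
  obtain ⟨s', hs', hI'⟩ : ∃ s', s < s' ∧ lam * II s' < 1 := by
    have hcont : ContinuousAt (fun s : ℝ => lam * II s) s := by
      unfold II
      have : s ≠ 0 := hs.ne'
      fun_prop (disch := assumption)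
    have h1 := hcont.eventually (eventually_lt_nhds hI)
    obtain ⟨ε, hε, hball⟩ := Metric.eventually_nhds_iff.1 h1
    refine ⟨s + ε / 2, by linarith, ?_⟩
    apply hball
    rw [Real.dist_eq, add_sub_cancel_left, abs_of_pos (by positivity)]
    linarith
  have hs'0 : 0 < s' := by linarith
  have hLt := tendsto_iL
  have hrate : 0 < 1 + s' * lam * (1 + Real.log (lam / (s' * lam))) - lam := by
    have e : lam / (s' * lam) = s'⁻¹ := by field_simp
    rw [e, Real.log_inv]
    unfold II at hI'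
    nlinarith
  have h1 := freq_gen (μ := μ) hA hd hlam (show 0 < s' * lam by positivity)
    (fun i => ⌊lam * ((i : ℝ) * Real.log 2) ^ 2⌋₊) (fun i => ⌈s' * lam * ((i : ℝ) * Real.log 2)⌉₊)
    (by
      have := (tendsto_nat_floor_mul_div_atTop hlam.le).comp ((tendsto_pow_atTop (n := 2) two_ne_zero).comp hLt)
      exact this)
    (by
      have := (tendsto_nat_ceil_mul_div_atTop (show 0 ≤ s' * lam by positivity)).comp hLt
      exact this) hrate
  filter_upwards [h1] with ω h1
  rw [frequently_atTop]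
  intro N
  have hev : ∀ᶠ i : ℕ in atTop, 1 ≤ (i : ℝ) * Real.log 2 ∧
      s * lam * ((i : ℝ) * Real.log 2 + 1) < s' * lam * ((i : ℝ) * Real.log 2) := by
    have h2 : ∀ᶠ x : ℝ in atTop, 1 ≤ x ∧ s * lam * (x + 1) < s' * lam * x := by
      filter_upwards [eventually_ge_atTop 1, eventually_gt_atTop (s * lam / ((s' - s) * lam))] with x hx1 hx2
      refine ⟨hx1, ?_⟩
      rw [div_lt_iff₀ (mul_pos (by linarith) hlam)] at hx2
      nlinarith
    exact hLt.eventually h2
  obtain ⟨i₂, hi₂⟩ := eventually_atTop.1 hev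
  obtain ⟨i, hi, t, ht1, ht2, ht3⟩ := h1 (max i₂ N)
  have hii : i₂ ≤ i := (le_max_left _ _).trans hi
  have hiN : N ≤ i := (le_max_right _ _).trans hi
  obtain ⟨h3, h4⟩ := hi₂ i hii
  have h5 : i < 2 ^ i := Nat.lt_two_pow_self
  obtain ⟨b1, b2⟩ := log_dyadic (i := i) (n := t) ht1 (by omega)
  refine ⟨t, by omega, ?_⟩
  have hw : ⌊lam * ((i : ℝ) * Real.log 2) ^ 2⌋₊ ≤ wl lam t := by
    apply Nat.floor_mono
    apply mul_le_mul_of_nonneg_left _ hlam.le
    exact pow_le_pow_left₀ (by positivity) b1 2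
  have h6 : (⌈s' * lam * ((i : ℝ) * Real.log 2)⌉₊ : ℝ) ≤ cnt A t (wl lam t) ω := by
    rw [← ht3]
    exact_mod_cast cnt_mono t hw ω
  have h7 := Nat.le_ceil (s' * lam * ((i : ℝ) * Real.log 2))
  have h8 : s * lam * Real.log t ≤ s * lam * ((i : ℝ) * Real.log 2 + 1) :=
    mul_le_mul_of_nonneg_left b2 (by positivity)
  linarith

/-- counts below `s lam log x` occur infinitely often -/
theorem er_lower_io (hA : ∀ n, MeasurableSet[ℱ n] (A n))
    (hd : ∀ᵐ ω ∂μ, Tendsto (fun n : ℕ => dens μ ℱ A n ω * Real.log n) atTop (𝓝 1))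
    {lam s : ℝ} (hlam : 0 < lam) (hs : 0 < s) (hI : lam * II s < 1) :
    ∀ᵐ ω ∂μ, ∃ᶠ x : ℕ in atTop, (cnt A x (wl lam x) ω : ℝ) < s * lam * Real.log x := by
  obtain ⟨hl20, hl21, hl22⟩ := log_two_facts
  obtain ⟨s', hs'0, hs', hI'⟩ : ∃ s', 0 < s' ∧ s' < s ∧ lam * II s' < 1 := by
    have hcont : ContinuousAt (fun s : ℝ => lam * II s) s := by
      unfold II
      have : s ≠ 0 := hs.ne'
      fun_prop (disch := assumption)
    have h1 := hcont.eventually (eventually_lt_nhds hI)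
    obtain ⟨ε, hε, hball⟩ := Metric.eventually_nhds_iff.1 h1
    refine ⟨s - min (ε / 2) (s / 2), ?_, ?_, ?_⟩
    · have := min_le_right (ε / 2) (s / 2)
      linarith
    · have : 0 < min (ε / 2) (s / 2) := lt_min (by positivity) (by positivity)
      linarith
    · apply hball
      have h2 : 0 < min (ε / 2) (s / 2) := lt_min (by positivity) (by positivity)
      have h3 := min_le_left (ε / 2) (s / 2)
      rw [Real.dist_eq, abs_sub_comm, sub_sub_cancel, abs_of_pos h2]
      linarith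
  have hLt := tendsto_iL
  have hrate : 0 < 1 + s' * lam * (1 + Real.log (lam / (s' * lam))) - lam := by
    have e : lam / (s' * lam) = s'⁻¹ := by field_simp
    rw [e, Real.log_inv]
    unfold II at hI'
    nlinarith
  have h1 := freq_gen (μ := μ) hA hd hlam (show 0 < s' * lam by positivity)
    (fun i => ⌈lam * ((i : ℝ) * Real.log 2 + 1) ^ 2⌉₊) (fun i => ⌊s' * lam * ((i : ℝ) * Real.log 2)⌋₊)
    (by
      have h2 : Tendsto (fun x : ℝ => (⌈lam * (x + 1) ^ 2⌉₊ : ℝ) / (x + 1) ^ 2) atTop (𝓝 lam) :=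
        (tendsto_nat_ceil_mul_div_atTop hlam.le).comp ((tendsto_pow_atTop (n := 2) two_ne_zero).comp
          (tendsto_atTop_add_const_right _ 1 tendsto_id))
      have h3 : Tendsto (fun x : ℝ => ((x + 1) / x) ^ 2) atTop (𝓝 1) := by
        have h4 : Tendsto (fun x : ℝ => 1 + x⁻¹) atTop (𝓝 (1 + 0)) := tendsto_inv_atTop_zero.const_add 1
        rw [add_zero] at h4
        have h5 := h4.pow 2
        rw [one_pow] at h5
        refine h5.congr' ?_
        filter_upwards [eventually_gt_atTop 0] with x hx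
        rw [add_div, div_self hx.ne', one_div]
      have h4 := (h2.mul h3).comp hLt
      rw [mul_one] at h4
      refine h4.congr' ?_
      filter_upwards [hLt.eventually_gt_atTop 0] with i hi
      simp only [Function.comp]
      field_simp)
    (by
      have := (tendsto_nat_floor_mul_div_atTop (show 0 ≤ s' * lam by positivity)).comp hLt
      exact this) hrate
  filter_upwards [h1] with ω h1
  rw [frequently_atTop]
  intro N
  obtain ⟨i₂, hi₂⟩ := eventually_atTop.1 (hLt.eventually_ge_atTop 1)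
  obtain ⟨i, hi, t, ht1, ht2, ht3⟩ := h1 (max i₂ N)
  have hii : i₂ ≤ i := (le_max_left _ _).trans hi
  have hiN : N ≤ i := (le_max_right _ _).trans hi
  have h3 := hi₂ i hii
  have h5 : i < 2 ^ i := Nat.lt_two_pow_self
  obtain ⟨b1, b2⟩ := log_dyadic (i := i) (n := t) ht1 (by omega)
  refine ⟨t, by omega, ?_⟩
  have hw : wl lam t ≤ ⌈lam * ((i : ℝ) * Real.log 2 + 1) ^ 2⌉₊ := by
    unfold wl
    refine (Nat.floor_le_ceil _).trans (Nat.ceil_mono ?_)
    apply mul_le_mul_of_nonneg_left _ hlam.le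
    exact pow_le_pow_left₀ (by linarith) b2 2
  have h6 : (cnt A t (wl lam t) ω : ℝ) ≤ (⌊s' * lam * ((i : ℝ) * Real.log 2)⌋₊ : ℝ) := by
    rw [← ht3]
    exact_mod_cast cnt_mono t hw ω
  have h7 := Nat.floor_le (show 0 ≤ s' * lam * ((i : ℝ) * Real.log 2) by positivity)
  have h8 : s' * lam * ((i : ℝ) * Real.log 2) < s * lam * ((i : ℝ) * Real.log 2) := by
    apply mul_lt_mul_of_pos_right _ (by linarith)
    exact mul_lt_mul_of_pos_right hs' hlam
  have h9 : s * lam * ((i : ℝ) * Real.log 2) ≤ s * lam * Real.log t :=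
    mul_le_mul_of_nonneg_left b1 (by positivity)
  linarith

/-- counts of at least `s lam log x` with `s > 1` do not occur infinitely often -/
theorem er_upper_ev (hA : ∀ n, MeasurableSet[ℱ n] (A n))
    (hd : ∀ᵐ ω ∂μ, Tendsto (fun n : ℕ => dens μ ℱ A n ω * Real.log n) atTop (𝓝 1))
    {lam s : ℝ} (hlam : 0 < lam) (hs : 1 < s) (hI : 1 < lam * II s) :
    ∀ᵐ ω ∂μ, ∀ᶠ x : ℕ in atTop, (cnt A x (wl lam x) ω : ℝ) < s * lam * Real.log x := by
  have h1 := er_tail (μ := μ) hA hd hlam (show 0 < s by linarith) hI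
    (fun x => {k : ℕ | s * lam * Real.log x ≤ k}) (by
      intro x k hk
      rw [← Real.rpow_natCast]
      exact Real.rpow_le_rpow_of_exponent_le hs.le hk)
  filter_upwards [h1] with ω h1
  filter_upwards [h1] with x hx
  simp only [not_le] at hx
  exact hx

/-- counts of at most `s lam log x` with `s < 1` do not occur infinitely often -/
theorem er_lower_ev (hA : ∀ n, MeasurableSet[ℱ n] (A n))
    (hd : ∀ᵐ ω ∂μ, Tendsto (fun n : ℕ => dens μ ℱ A n ω * Real.log n) atTop (𝓝 1))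
    {lam s : ℝ} (hlam : 0 < lam) (hs0 : 0 < s) (hs : s < 1) (hI : 1 < lam * II s) :
    ∀ᵐ ω ∂μ, ∀ᶠ x : ℕ in atTop, s * lam * Real.log x < cnt A x (wl lam x) ω := by
  have h1 := er_tail (μ := μ) hA hd hlam hs0 hI
    (fun x => {k : ℕ | (k : ℝ) ≤ s * lam * Real.log x}) (by
      intro x k hk
      rw [← Real.rpow_natCast]
      exact Real.rpow_le_rpow_of_exponent_ge hs0 hs.le hk)
  filter_upwards [h1] with ω h1
  filter_upwards [h1] with x hx
  simp only [not_le] at hx
  exact hx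

end Pool.Agent.R528.RM
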