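import Mathlib
import Pool.Agent.H50.G.B.R528.RM.ER
set_option autoImplicit false
set_option linter.unusedSectionVars false

/-! # The exact extreme orders in windows of length `lam log²` -/

open MeasureTheory Filter Set
open scoped ENNReal Topology

namespace Pool.Agent.R528.RM

variable {Ω : Type} {m0 : MeasurableSpace Ω} {μ : Measure Ω} [IsProbabilityMeasure μ]
  {ℱ : Filtration ℕ m0} {A : ℕ → Set Ω}

lemma II_convex {s t : ℝ} (hs : 0 < s) (ht : 0 < t) (hst : s ≠ t) : (t - s) * Real.log s < II t - II s := by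
  have hne : s / t ≠ 1 := by
    intro h
    rw [div_eq_one_iff_eq ht.ne'] at h
    exact hst h
  have h1 := Real.log_lt_sub_one_of_pos (show 0 < s / t by positivity) hne
  rw [Real.log_div hs.ne' ht.ne'] at h1
  have h2 : t * (Real.log s - Real.log t) < t * (s / t - 1) := mul_lt_mul_of_pos_left h1 ht
  have h3 : t * (s / t - 1) = s - t := by field_simp
  unfold II
  nlinarith

lemma II_mono {s t : ℝ} (hs : 1 ≤ s) (hst : s < t) : II s < II t := by
  have h1 := II_convex (show 0 < s by linarith) (show 0 < t by linarith) hst.ne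
  have h2 : 0 ≤ Real.log s := Real.log_nonneg hs
  have : 0 ≤ (t - s) * Real.log s := mul_nonneg (by linarith) h2
  linarith

lemma II_anti {s t : ℝ} (hs : 0 < s) (hst : s < t) (ht : t ≤ 1) : II t < II s := by
  have h1 := II_convex (show 0 < t by linarith) hs hst.ne'
  have h2 : Real.log t ≤ 0 := Real.log_nonpos (by linarith) ht
  have : 0 ≤ (s - t) * Real.log t := mul_nonneg_of_nonpos_of_nonpos (by linarith) h2
  linarith

lemma II_lt_one {s : ℝ} (hs : 0 < s) (hs1 : s < 1) : II s < 1 := by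
  unfold II
  have h1 : Real.log s < 0 := Real.log_neg hs hs1
  nlinarith

/-- **the exact extreme orders** -/
theorem er_final (hA : ∀ n, MeasurableSet[ℱ n] (A n))
    (hd : ∀ᵐ ω ∂μ, Tendsto (fun n : ℕ => dens μ ℱ A n ω * Real.log n) atTop (𝓝 1))
    {lam a b : ℝ} (hlam : 0 < lam) (ha : 1 < a) (hIa : lam * II a = 1) (hb0 : 0 ≤ b) (hb1 : b < 1)
    (hb : (lam ≤ 1 ∧ b = 0) ∨ (0 < b ∧ lam * II b = 1)) :
    ∀ᵐ ω ∂μ, ∀ ε : ℝ, 0 < ε →
      (∀ᶠ x : ℕ in atTop, (cnt A x (wl lam x) ω : ℝ) < (a + ε) * lam * Real.log x) ∧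
      (∃ᶠ x : ℕ in atTop, (a - ε) * lam * Real.log x < cnt A x (wl lam x) ω) ∧
      (∀ᶠ x : ℕ in atTop, (b - ε) * lam * Real.log x < cnt A x (wl lam x) ω) ∧
      (∃ᶠ x : ℕ in atTop, (cnt A x (wl lam x) ω : ℝ) < (b + ε) * lam * Real.log x) := by
  have hlog : ∀ᶠ x : ℕ in atTop, 0 < Real.log x := tendsto_log.eventually_gt_atTop 0
  -- four countable families
  have h1 : ∀ m : ℕ, ∀ᵐ ω ∂μ, ∀ᶠ x : ℕ in atTop, (cnt A x (wl lam x) ω : ℝ) < (a + 1 / ((m : ℝ) + 1)) * lam * Real.log x := by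
    intro m
    have hm : 0 < 1 / ((m : ℝ) + 1) := by positivity
    refine er_upper_ev hA hd hlam (by linarith) ?_
    exact hIa.symm.trans_lt (mul_lt_mul_of_pos_left (II_mono ha.le (by linarith)) hlam)
  have h2 : ∀ m : ℕ, ∀ᵐ ω ∂μ, ∃ᶠ x : ℕ in atTop, (a - 1 / ((m : ℝ) + 1)) * lam * Real.log x < cnt A x (wl lam x) ω := by
    intro m
    have hm : 0 < 1 / ((m : ℝ) + 1) := by positivity
    set s := max ((1 + a) / 2) (a - 1 / ((m : ℝ) + 1)) with hs
    have hs1 : 1 < s := lt_of_lt_of_le (by linarith) (le_max_left _ _)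
    have hsa : s < a := max_lt (by linarith) (by linarith)
    have h3 := er_upper_io (μ := μ) hA hd hlam (show 0 < s by linarith) (
      (mul_lt_mul_of_pos_left (II_mono hs1.le hsa) hlam).trans_eq hIa)
    filter_upwards [h3] with ω h3
    refine (h3.and_eventually hlog).mono fun x hx => lt_of_le_of_lt ?_ hx.1
    apply mul_le_mul_of_nonneg_right _ hx.2.le
    exact mul_le_mul_of_nonneg_right (le_max_right _ _) hlam.le
  have h3 : ∀ m : ℕ, ∀ᵐ ω ∂μ, ∀ᶠ x : ℕ in atTop, (b - 1 / ((m : ℝ) + 1)) * lam * Real.log x < cnt A x (wl lam x) ω := by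
    intro m
    have hm : 0 < 1 / ((m : ℝ) + 1) := by positivity
    rcases hb with ⟨_, hb⟩ | ⟨hb, hIb⟩
    · refine Eventually.of_forall fun ω => ?_
      filter_upwards [hlog] with x hx
      have h4 : (b - 1 / ((m : ℝ) + 1)) * lam * Real.log x < 0 := by
        apply mul_neg_of_neg_of_pos _ hx
        apply mul_neg_of_neg_of_pos _ hlam
        rw [hb]
        linarith
      exact h4.trans_le (Nat.cast_nonneg _)
    · set s := max (b / 2) (b - 1 / ((m : ℝ) + 1)) with hs
      have hs1 : 0 < s := lt_of_lt_of_le (by linarith) (le_max_left _ _)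
      have hsb : s < b := max_lt (by linarith) (by linarith)
      have h4 := er_lower_ev (μ := μ) hA hd hlam hs1 (by linarith) (
        hIb.symm.trans_lt (mul_lt_mul_of_pos_left (II_anti hs1 hsb hb1.le) hlam))
      filter_upwards [h4] with ω h4
      filter_upwards [h4, hlog] with x hx hxl
      refine lt_of_le_of_lt ?_ hx
      apply mul_le_mul_of_nonneg_right _ hxl.le
      exact mul_le_mul_of_nonneg_right (le_max_right _ _) hlam.le
  have h4 : ∀ m : ℕ, ∀ᵐ ω ∂μ, ∃ᶠ x : ℕ in atTop, (cnt A x (wl lam x) ω : ℝ) < (b + 1 / ((m : ℝ) + 1)) * lam * Real.log x := by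
    intro m
    have hm : 0 < 1 / ((m : ℝ) + 1) := by positivity
    set s := min ((1 + b) / 2) (b + 1 / ((m : ℝ) + 1)) with hs
    have hs1 : s < 1 := lt_of_le_of_lt (min_le_left _ _) (by linarith)
    have hsb : b < s := lt_min (by linarith) (by linarith)
    have hs0 : 0 < s := by linarith
    have hI : lam * II s < 1 := by
      rcases hb with ⟨hl, _⟩ | ⟨hb, hIb⟩
      · have h5 := II_lt_one hs0 hs1
        nlinarith
      · exact (mul_lt_mul_of_pos_left (II_anti hb hsb hs1.le) hlam).trans_eq hIb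
    have h5 := er_lower_io (μ := μ) hA hd hlam hs0 hI
    filter_upwards [h5] with ω h5
    refine (h5.and_eventually hlog).mono fun x hx => lt_of_lt_of_le hx.1 ?_
    apply mul_le_mul_of_nonneg_right _ hx.2.le
    exact mul_le_mul_of_nonneg_right (min_le_right _ _) hlam.le
  filter_upwards [ae_all_iff.2 h1, ae_all_iff.2 h2, ae_all_iff.2 h3, ae_all_iff.2 h4] with ω h1 h2 h3 h4 ε hε
  obtain ⟨m, hm⟩ := exists_nat_one_div_lt hε
  refine ⟨?_, ?_, ?_, ?_⟩
  · filter_upwards [h1 m, hlog] with x hx hxl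
    refine hx.trans_le (mul_le_mul_of_nonneg_right (mul_le_mul_of_nonneg_right (by linarith) hlam.le) hxl.le)
  · refine ((h2 m).and_eventually hlog).mono fun x hx => ?_
    refine lt_of_le_of_lt (mul_le_mul_of_nonneg_right (mul_le_mul_of_nonneg_right (by linarith) hlam.le) hx.2.le) hx.1
  · filter_upwards [h3 m, hlog] with x hx hxl
    refine lt_of_le_of_lt (mul_le_mul_of_nonneg_right (mul_le_mul_of_nonneg_right (by linarith) hlam.le) hxl.le) hx
  · refine ((h4 m).and_eventually hlog).mono fun x hx => ?_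
    refine hx.1.trans_le (mul_le_mul_of_nonneg_right (mul_le_mul_of_nonneg_right (by linarith) hlam.le) hx.2.le)

/-- the counting function as the number of elements of a set -/
lemma cnt_eq_ncard (x j : ℕ) (ω : Ω) : cnt A x j ω = Set.ncard {a : ℕ | ω ∈ A a ∧ x < a ∧ a ≤ x + j} := by
  classical
  have h1 : {a : ℕ | ω ∈ A a ∧ x < a ∧ a ≤ x + j} =
      ((Finset.range j).filter (fun r => ω ∈ A (x + 1 + r))).image (fun r => x + 1 + r) := by
    ext a
    simp only [mem_ofPred_eq, Finset.coe_image, mem_image, Finset.mem_coe, Finset.mem_filter, Finset.mem_range]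
    constructor
    · rintro ⟨h1, h2, h3⟩
      refine ⟨a - (x + 1), ⟨by omega, ?_⟩, by omega⟩
      have : x + 1 + (a - (x + 1)) = a := by omega
      rwa [this]
    · rintro ⟨r, ⟨hr, hA⟩, rfl⟩
      exact ⟨hA, by omega, by omega⟩
  rw [h1, Set.ncard_coe_finset, Finset.card_image_of_injective _ (fun a b h => by simpa using h)]
  unfold cnt
  rw [Finset.card_filter]

lemma window_set (lam : ℝ) (hlam : 0 < lam) (x : ℕ) (ω : Ω) :
    {a : ℕ | ω ∈ A a ∧ x < a ∧ (a : ℝ) ≤ x + lam * Real.log x ^ 2} = {a : ℕ | ω ∈ A a ∧ x < a ∧ a ≤ x + wl lam x} := by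
  ext a
  simp only [mem_ofPred_eq]
  refine and_congr_right fun _ => and_congr_right fun hx => ?_
  obtain ⟨b, rfl⟩ : ∃ b, a = x + b := ⟨a - x, by omega⟩
  push_cast
  rw [add_le_add_iff_left, add_le_add_iff_left, wl, Nat.le_floor_iff (by positivity)]

end Pool.Agent.R528.RM
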