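import Mathlib
import Pool.Agent.H50.G.B.R528.RM.Uniform
set_option autoImplicit false
set_option linter.unusedSectionVars false

/-! # The uniform law in short intervals -/

open MeasureTheory Filter Set
open scoped ENNReal Topology

namespace Pool.Agent.R528.RM

variable {Ω : Type} {m0 : MeasurableSpace Ω} {μ : Measure Ω} [IsProbabilityMeasure μ]
  {ℱ : Filtration ℕ m0} {A : ℕ → Set Ω}

/-- the number of members in the real interval `(x, x + H]` -/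
noncomputable def cntR (S : Set ℕ) (x H : ℝ) : ℕ := Set.ncard {a : ℕ | a ∈ S ∧ x < a ∧ (a : ℝ) ≤ x + H}

lemma cntR_eq {ω : Ω} {x H : ℝ} (hx : 0 ≤ x) (hH : 0 ≤ H) :
    cntR (rset A ω) x H = cnt A ⌊x⌋₊ (⌊x + H⌋₊ - ⌊x⌋₊) ω := by
  rw [cnt_eq_ncard]
  unfold cntR rset
  congr 1
  ext a
  simp only [mem_ofPred_eq]
  have h1 : ⌊x⌋₊ ≤ ⌊x + H⌋₊ := Nat.floor_mono (by linarith)
  refine and_congr_right fun _ => ?_
  rw [Nat.floor_lt hx]
  refine and_congr_right fun _ => ?_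
  have h2 : ⌊x⌋₊ + (⌊x + H⌋₊ - ⌊x⌋₊) = ⌊x + H⌋₊ := by omega
  rw [h2, Nat.le_floor_iff (by linarith)]

lemma exists_lam {lam I : ℝ} (hlam : 0 < lam) (h : 1 < lam * I) : ∃ lam', 0 < lam' ∧ lam' < lam ∧ 1 < lam' * I := by
  have hI : 0 < I := by
    by_contra hcon
    push Not at hcon
    nlinarith
  refine ⟨(lam + 1 / I) / 2, by positivity, ?_, ?_⟩
  · have : 1 / I < lam := by rwa [div_lt_iff₀ hI]
    linarith
  · have h1 : (lam + 1 / I) / 2 * I = (lam * I + 1) / 2 := by field_simp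
    rw [h1]
    linarith

lemma window_facts {lam lam' : ℝ} (hlam' : 0 < lam') (hl : lam' < lam) : ∀ᶠ x : ℝ in atTop, 3 ≤ x ∧ 1 ≤ Real.log ⌊x⌋₊ ∧
    ∀ H, lam * Real.log x ^ 2 ≤ H → H ≤ x →
      0 < H ∧ wl lam' ⌊x⌋₊ ≤ ⌊x + H⌋₊ - ⌊x⌋₊ ∧ ⌊x + H⌋₊ - ⌊x⌋₊ ≤ 2 * ⌊x⌋₊ ∧
      ((⌊x + H⌋₊ - ⌊x⌋₊ : ℕ) : ℝ) ≤ H + 1 ∧ H - 1 ≤ ((⌊x + H⌋₊ - ⌊x⌋₊ : ℕ) : ℝ) := by
  have h1 : ∀ᶠ x : ℝ in atTop, 1 ≤ (lam - lam') * Real.log x ^ 2 :=
    (((tendsto_pow_atTop (by norm_num : (2 : ℕ) ≠ 0)).comp Real.tendsto_log_atTop).const_mul_atTop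
      (show 0 < lam - lam' by linarith)).eventually_ge_atTop 1
  have h2 : ∀ᶠ x : ℝ in atTop, 1 ≤ Real.log ⌊x⌋₊ := (tendsto_log.comp tendsto_nat_floor_atTop).eventually_ge_atTop 1
  filter_upwards [h1, h2, eventually_ge_atTop (3 : ℝ)] with x h1 h2 hx
  refine ⟨hx, h2, fun H hH1 hH2 => ?_⟩
  have hlog : 0 < Real.log x := Real.log_pos (by linarith)
  have hH0 : 0 < H := lt_of_lt_of_le (by have := hlam'.trans hl; positivity) hH1
  have f1 : (⌊x⌋₊ : ℝ) ≤ x := Nat.floor_le (by linarith)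
  have f2 : x < ⌊x⌋₊ + 1 := Nat.lt_floor_add_one x
  have f3 : (⌊x + H⌋₊ : ℝ) ≤ x + H := Nat.floor_le (by linarith)
  have f4 : x + H < ⌊x + H⌋₊ + 1 := Nat.lt_floor_add_one _
  have f5 : ⌊x⌋₊ ≤ ⌊x + H⌋₊ := Nat.floor_mono (by linarith)
  have f6 : ((⌊x + H⌋₊ - ⌊x⌋₊ : ℕ) : ℝ) = (⌊x + H⌋₊ : ℝ) - ⌊x⌋₊ := by
    rw [Nat.cast_sub f5]
  have f7 : H - 1 ≤ ((⌊x + H⌋₊ - ⌊x⌋₊ : ℕ) : ℝ) := by rw [f6]; linarith
  have f8 : ((⌊x + H⌋₊ - ⌊x⌋₊ : ℕ) : ℝ) ≤ H + 1 := by rw [f6]; linarith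
  refine ⟨hH0, ?_, ?_, f8, f7⟩
  · have g1 : (wl lam' ⌊x⌋₊ : ℝ) ≤ lam' * Real.log ⌊x⌋₊ ^ 2 := Nat.floor_le (by positivity)
    have g2 : Real.log ⌊x⌋₊ ≤ Real.log x := Real.log_le_log (by linarith) f1
    have g3 : Real.log ⌊x⌋₊ ^ 2 ≤ Real.log x ^ 2 := pow_le_pow_left₀ (by linarith) g2 2
    have g4 : lam' * Real.log ⌊x⌋₊ ^ 2 ≤ lam' * Real.log x ^ 2 := mul_le_mul_of_nonneg_left g3 hlam'.le
    have g5 : (wl lam' ⌊x⌋₊ : ℝ) ≤ ((⌊x + H⌋₊ - ⌊x⌋₊ : ℕ) : ℝ) := by nlinarith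
    exact_mod_cast g5
  · have g1 : ((⌊x + H⌋₊ - ⌊x⌋₊ : ℕ) : ℝ) < 2 * ⌊x⌋₊ + 1 := by
      rw [f6]
      have : (2 : ℝ) ≤ ⌊x⌋₊ := by linarith
      linarith
    have g2 : ⌊x + H⌋₊ - ⌊x⌋₊ < 2 * ⌊x⌋₊ + 1 := by exact_mod_cast g1
    omega

lemma log_floor_ratio : Tendsto (fun x : ℝ => Real.log x / Real.log ⌊x⌋₊) atTop (𝓝 1) := by
  have h1 : Tendsto (fun x : ℝ => 1 + (1 : ℝ) / Real.log ⌊x⌋₊) atTop (𝓝 (1 + 0)) :=
    tendsto_const_nhds.add ((tendsto_log.comp tendsto_nat_floor_atTop).const_div_atTop 1)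
  rw [add_zero] at h1
  refine tendsto_of_tendsto_of_tendsto_of_le_of_le' tendsto_const_nhds h1 ?_ ?_
  · filter_upwards [(tendsto_log.comp tendsto_nat_floor_atTop).eventually_ge_atTop 1, eventually_ge_atTop (3 : ℝ)] with x h hx
    have h : 1 ≤ Real.log ⌊x⌋₊ := h
    rw [one_le_div (by linarith)]
    have f2 : x < ⌊x⌋₊ + 1 := Nat.lt_floor_add_one x
    exact Real.log_le_log (by linarith) (Nat.floor_le (by linarith))
  · filter_upwards [(tendsto_log.comp tendsto_nat_floor_atTop).eventually_ge_atTop 1, eventually_ge_atTop (3 : ℝ)] with x h hx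
    have h : 1 ≤ Real.log ⌊x⌋₊ := h
    rw [div_le_iff₀ (by linarith)]
    have f2 : x < ⌊x⌋₊ + 1 := Nat.lt_floor_add_one x
    have h2 : Real.log x ≤ Real.log (⌊x⌋₊ * 2) := Real.log_le_log (by linarith) (by linarith)
    have h3 : (0 : ℝ) < ⌊x⌋₊ := by linarith
    rw [Real.log_mul h3.ne' (by norm_num)] at h2
    have h4 := log_two_facts.2.1
    have h5 : (1 + 1 / Real.log ⌊x⌋₊) * Real.log ⌊x⌋₊ = Real.log ⌊x⌋₊ + 1 := by
      have : Real.log ⌊x⌋₊ ≠ 0 := by linarith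
      field_simp
    linarith

lemma ratio_one (lam : ℝ) : Tendsto (fun x : ℝ => 1 + 1 / (lam * Real.log x ^ 2)) atTop (𝓝 1) := by
  rcases eq_or_ne lam 0 with h | h
  · simp [h]
  · have h1 : Tendsto (fun x : ℝ => Real.log x ^ 2) atTop atTop :=
      (tendsto_pow_atTop (by norm_num : (2 : ℕ) ≠ 0)).comp Real.tendsto_log_atTop
    have h2 : Tendsto (fun x : ℝ => 1 + lam⁻¹ * (Real.log x ^ 2)⁻¹) atTop (𝓝 (1 + lam⁻¹ * 0)) :=
      tendsto_const_nhds.add (h1.inv_tendsto_atTop.const_mul _)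
    rw [mul_zero, add_zero] at h2
    refine h2.congr fun x => ?_
    rw [one_div, mul_inv]

/-- **the uniform law** -/
theorem uni_law (hA : ∀ n, MeasurableSet[ℱ n] (A n))
    (hd : ∀ᵐ ω ∂μ, Tendsto (fun n : ℕ => dens μ ℱ A n ω * Real.log n) atTop (𝓝 1))
    {lam a : ℝ} (hlam : 0 < lam) (ha : 1 < a) (hIa : lam * II a = 1) :
    ∀ᵐ ω ∂μ, ∀ ε : ℝ, 0 < ε →
      (∀ᶠ x : ℝ in atTop, ∀ H, lam * Real.log x ^ 2 ≤ H → H ≤ x →
        |(cntR (rset A ω) x H : ℝ) * Real.log x / H - 1| < a - 1 + ε) ∧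
      (∃ᶠ x : ℝ in atTop, ∃ H, lam * Real.log x ^ 2 ≤ H ∧ H ≤ x ∧
        a - 1 - ε < |(cntR (rset A ω) x H : ℝ) * Real.log x / H - 1|) := by
  have hfl : ∀ x : ℝ, 3 ≤ x → (0 : ℝ) < ⌊x⌋₊ := fun x hx => by
    have := Nat.lt_floor_add_one x
    linarith
  -- the upper family
  have h1 : ∀ m : ℕ, ∀ᵐ ω ∂μ, ∀ᶠ x : ℝ in atTop, ∀ H, lam * Real.log x ^ 2 ≤ H → H ≤ x →
      (cntR (rset A ω) x H : ℝ) * Real.log x / H < a + 1 / ((m : ℝ) + 1) := by
    intro m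
    have hm : 0 < 1 / ((m : ℝ) + 1) := by positivity
    set s : ℝ := a + 1 / ((m : ℝ) + 1) / 2 with hs
    have hsI : 1 < lam * II s := hIa.symm.trans_lt (mul_lt_mul_of_pos_left (II_mono ha.le (by linarith)) hlam)
    obtain ⟨lam', hl0, hl1, hl2⟩ := exists_lam hlam hsI
    have h3 := uni_tail (μ := μ) hA hd hl0 (show 0 < s by linarith) hl2 (fun x j => {k : ℕ | s * j / Real.log x ≤ k}) (by
      intro x j k hk
      rw [← Real.rpow_natCast]
      exact Real.rpow_le_rpow_of_exponent_le (by linarith) hk)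
    have hlim : Tendsto (fun x : ℝ => s * ((1 + 1 / (lam * Real.log x ^ 2)) * (Real.log x / Real.log ⌊x⌋₊))) atTop (𝓝 (s * (1 * 1))) :=
      ((ratio_one lam).mul log_floor_ratio).const_mul s
    have hlim' := hlim.eventually (gt_mem_nhds (show s * (1 * 1) < a + 1 / ((m : ℝ) + 1) by linarith))
    filter_upwards [h3] with ω h3
    filter_upwards [tendsto_nat_floor_atTop.eventually h3, window_facts hl0 hl1, hlim'] with x h4 h5 h6 H hH1 hH2
    obtain ⟨hx, hlog, h5⟩ := h5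
    obtain ⟨g0, g1, g2, g3, g4⟩ := h5 H hH1 hH2
    have g5 := h4 _ g1 g2
    simp only [not_le] at g5
    rw [cntR_eq (by linarith) g0.le]
    obtain ⟨N, hN⟩ : ∃ N : ℝ, N = cnt A ⌊x⌋₊ (⌊x + H⌋₊ - ⌊x⌋₊) ω := ⟨_, rfl⟩
    rw [← hN] at g5 ⊢
    have hlx : 0 < Real.log x := Real.log_pos (by linarith)
    refine lt_of_le_of_lt ?_ h6
    rw [div_le_iff₀ g0]
    have g6 : N * Real.log x ≤ s * ((⌊x + H⌋₊ - ⌊x⌋₊ : ℕ) : ℝ) / Real.log ⌊x⌋₊ * Real.log x :=
      mul_le_mul_of_nonneg_right g5.le hlx.le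
    refine g6.trans ?_
    have g7 : s * ((⌊x + H⌋₊ - ⌊x⌋₊ : ℕ) : ℝ) / Real.log ⌊x⌋₊ * Real.log x ≤ s * (H + 1) / Real.log ⌊x⌋₊ * Real.log x := by
      apply mul_le_mul_of_nonneg_right _ hlx.le
      apply div_le_div_of_nonneg_right _ (by linarith)
      exact mul_le_mul_of_nonneg_left g3 (by linarith)
    refine g7.trans ?_
    have g8 : H + 1 ≤ (1 + 1 / (lam * Real.log x ^ 2)) * H := by
      have : 1 ≤ 1 / (lam * Real.log x ^ 2) * H := by
        rw [one_div, inv_mul_eq_div, one_le_div (by positivity)]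
        exact hH1
      linarith
    have g9 : s * (H + 1) / Real.log ⌊x⌋₊ * Real.log x ≤ s * ((1 + 1 / (lam * Real.log x ^ 2)) * H) / Real.log ⌊x⌋₊ * Real.log x := by
      apply mul_le_mul_of_nonneg_right _ hlx.le
      apply div_le_div_of_nonneg_right _ (by linarith)
      exact mul_le_mul_of_nonneg_left g8 (by linarith)
    refine g9.trans (le_of_eq ?_)
    ring
  -- the lower family
  have h2 : ∀ m : ℕ, ∀ᵐ ω ∂μ, ∀ᶠ x : ℝ in atTop, ∀ H, lam * Real.log x ^ 2 ≤ H → H ≤ x →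
      1 - (a - 1 + 1 / ((m : ℝ) + 1)) < (cntR (rset A ω) x H : ℝ) * Real.log x / H := by
    intro m
    have hm : 0 < 1 / ((m : ℝ) + 1) := by positivity
    rcases le_or_gt (1 : ℝ) (a - 1 + 1 / ((m : ℝ) + 1) / 2) with hc | hc
    · refine Eventually.of_forall fun ω => ?_
      filter_upwards [window_facts (show 0 < lam / 2 by linarith) (show lam / 2 < lam by linarith)] with x h5 H hH1 hH2
      obtain ⟨hx, hlog, h5⟩ := h5
      obtain ⟨g0, _⟩ := h5 H hH1 hH2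
      have hlx : 0 < Real.log x := Real.log_pos (by linarith)
      have : 0 ≤ (cntR (rset A ω) x H : ℝ) * Real.log x / H := by positivity
      linarith
    · set s : ℝ := 1 - (a - 1) - 1 / ((m : ℝ) + 1) / 2 with hs
      have hs0 : 0 < s := by linarith
      have hsI : 1 < lam * II s := by
        have g1 : II (1 - (a - 1)) < II s := II_anti hs0 (by linarith) (by linarith)
        have g2 : II (1 + (a - 1)) ≤ II (1 - (a - 1)) := II_left_right (by linarith) (by linarith)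
        have g3 : 1 + (a - 1) = a := by ring
        rw [g3] at g2
        exact hIa.symm.trans_lt (mul_lt_mul_of_pos_left (lt_of_le_of_lt g2 g1) hlam)
      obtain ⟨lam', hl0, hl1, hl2⟩ := exists_lam hlam hsI
      have h3 := uni_tail (μ := μ) hA hd hl0 hs0 hl2 (fun x j => {k : ℕ | (k : ℝ) ≤ s * j / Real.log x}) (by
        intro x j k hk
        rw [← Real.rpow_natCast]
        exact Real.rpow_le_rpow_of_exponent_ge hs0 (by linarith) hk)
      have hlim : Tendsto (fun x : ℝ => s * (2 - (1 + 1 / (lam * Real.log x ^ 2)))) atTop (𝓝 (s * (2 - 1))) :=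
        (tendsto_const_nhds.sub (ratio_one lam)).const_mul s
      have hlim' := hlim.eventually (lt_mem_nhds (show 1 - (a - 1 + 1 / ((m : ℝ) + 1)) < s * (2 - 1) by linarith))
      filter_upwards [h3] with ω h3
      filter_upwards [tendsto_nat_floor_atTop.eventually h3, window_facts hl0 hl1, hlim'] with x h4 h5 h6 H hH1 hH2
      obtain ⟨hx, hlog, h5⟩ := h5
      obtain ⟨g0, g1, g2, g3, g4⟩ := h5 H hH1 hH2
      have g5 := h4 _ g1 g2
      simp only [not_le] at g5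
      rw [cntR_eq (by linarith) g0.le]
      obtain ⟨N, hN⟩ : ∃ N : ℝ, N = cnt A ⌊x⌋₊ (⌊x + H⌋₊ - ⌊x⌋₊) ω := ⟨_, rfl⟩
      rw [← hN] at g5 ⊢
      have hlx : 0 < Real.log x := Real.log_pos (by linarith)
      refine lt_of_lt_of_le h6 ?_
      rw [le_div_iff₀ g0]
      have f1 : (⌊x⌋₊ : ℝ) ≤ x := Nat.floor_le (by linarith)
      have hlf : Real.log ⌊x⌋₊ ≤ Real.log x := Real.log_le_log (hfl x hx) f1
      -- `N ≥ s (H - 1) / log x`
      have g6 : s * (H - 1) ≤ N * Real.log x := by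
        have g7 : s * ((⌊x + H⌋₊ - ⌊x⌋₊ : ℕ) : ℝ) < N * Real.log ⌊x⌋₊ := by
          rwa [div_lt_iff₀ (by linarith)] at g5
        have hN0 : 0 ≤ N := by rw [hN]; exact Nat.cast_nonneg _
        have g8 : N * Real.log ⌊x⌋₊ ≤ N * Real.log x := mul_le_mul_of_nonneg_left hlf hN0
        have g9 : s * (H - 1) ≤ s * ((⌊x + H⌋₊ - ⌊x⌋₊ : ℕ) : ℝ) := mul_le_mul_of_nonneg_left g4 hs0.le
        linarith
      refine le_trans ?_ g6
      have g8 : 1 ≤ 1 / (lam * Real.log x ^ 2) * H := by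
        rw [one_div, inv_mul_eq_div, one_le_div (by positivity)]
        exact hH1
      have g9 : s * (2 - (1 + 1 / (lam * Real.log x ^ 2))) * H = s * (H - 1 / (lam * Real.log x ^ 2) * H) := by ring
      rw [g9]
      exact mul_le_mul_of_nonneg_left (by linarith) hs0.le
  have h4 : ∀ m : ℕ, ∀ᵐ ω ∂μ, ∃ᶠ x : ℕ in atTop, (a - 1 / ((m : ℝ) + 1)) * lam * Real.log x < cnt A x (wl lam x) ω := by
    intro m
    have hm : 0 < 1 / ((m : ℝ) + 1) := by positivity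
    set s := max ((1 + a) / 2) (a - 1 / ((m : ℝ) + 1)) with hs
    have hs1 : 1 < s := lt_of_lt_of_le (by linarith) (le_max_left _ _)
    have hsa : s < a := max_lt (by linarith) (by linarith)
    have h3 := er_upper_io (μ := μ) hA hd hlam (show 0 < s by linarith) (
      (mul_lt_mul_of_pos_left (II_mono hs1.le hsa) hlam).trans_eq hIa)
    filter_upwards [h3] with ω h3
    refine (h3.and_eventually (tendsto_log.eventually_gt_atTop 0)).mono fun x hx => lt_of_le_of_lt ?_ hx.1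
    apply mul_le_mul_of_nonneg_right _ hx.2.le
    exact mul_le_mul_of_nonneg_right (le_max_right _ _) hlam.le
  filter_upwards [ae_all_iff.2 h1, ae_all_iff.2 h2, ae_all_iff.2 h4] with ω h1 h2 h4 ε hε
  obtain ⟨m, hm⟩ := exists_nat_one_div_lt hε
  constructor
  · filter_upwards [h1 m, h2 m] with x g1 g2 H hH1 hH2
    have g3 := g1 H hH1 hH2
    have g4 := g2 H hH1 hH2
    rw [abs_lt]
    constructor <;> linarith
  · have hev : ∀ᶠ x : ℕ in atTop, 2 ≤ x ∧ 0 < Real.log x ∧ lam * Real.log x ^ 2 ≤ x := by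
      have g1 : ∀ᶠ x : ℝ in atTop, lam * Real.log x ^ 2 ≤ x := by
        have g2 := (Real.isLittleO_pow_log_id_atTop (n := 2)).def (show (0 : ℝ) < 1 / lam by positivity)
        filter_upwards [g2, eventually_ge_atTop 1] with x g2 g3
        rw [Real.norm_of_nonneg (by positivity), id, Real.norm_of_nonneg (by linarith)] at g2
        calc lam * Real.log x ^ 2 ≤ lam * (1 / lam * x) := mul_le_mul_of_nonneg_left g2 hlam.le
          _ = x := by field_simp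
      exact (eventually_ge_atTop 2).and ((tendsto_log.eventually_gt_atTop 0).and (tendsto_natCast_atTop_atTop.eventually g1))
    have h5 := (h4 m).and_eventually hev
    refine (tendsto_natCast_atTop_atTop (R := ℝ)).frequently (h5.mono ?_)
    rintro x ⟨g1, g2, g3, g4⟩
    refine ⟨lam * Real.log x ^ 2, le_rfl, g4, ?_⟩
    have g5 : cntR (rset A ω) x (lam * Real.log x ^ 2) = cnt A x (wl lam x) ω := by
      rw [cnt_eq_ncard, ← window_set lam hlam]
      unfold cntR rset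
      congr 1
      ext b
      simp only [mem_ofPred_eq, Nat.cast_lt]
    rw [g5]
    refine lt_of_lt_of_le ?_ (le_abs_self _)
    have g6 : 0 < lam * Real.log x ^ 2 := by positivity
    have g7 : a - 1 / ((m : ℝ) + 1) < (cnt A x (wl lam x) ω : ℝ) * Real.log x / (lam * Real.log x ^ 2) := by
      rw [lt_div_iff₀ g6]
      have := mul_lt_mul_of_pos_right g1 g3
      nlinarith
    linarith

end Pool.Agent.R528.RM
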